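import Pool.Agent.helper66.JS.Defs2

/-!
# Module F1: from phases to an order of the letters
-/

set_option autoImplicit false

namespace Pool.Agent.helper66.JS

open Finset

namespace F1

theorem run_append (q : St) (l m : List Let) :
    run q (l ++ m) = (run q l).bind (fun q' => run q' m) := by
  induction l generalizing q with
  | nil => rfl
  | cons x l ih =>
    show (step q x).bind (fun S' => run S' (l ++ m)) =
      ((step q x).bind (fun S' => run S' l)).bind (fun q' => run q' m)
    cases step q x with
    | none => rfl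
    | some q1 => exact ih q1

theorem run_append_some {q q' q'' : St} {l m : List Let} (h : run q l = some q')
    (h' : run q' m = some q'') : run q (l ++ m) = some q'' := by
  rw [run_append, h]; exact h'

theorem run_loop {q : St} {l : List Let} (h : ∀ x ∈ l, step q x = some q) :
    run q l = some q := by
  induction l with
  | nil => rfl
  | cons x l ih =>
    show (step q x).bind (fun S' => run S' l) = some q
    rw [h x (by simp)]
    exact ih (fun y hy => h y (by simp [hy]))

/-- interleaving of two lists -/
def inter {Λ : Type} : List Λ → List Λ → List Λ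
  | a :: as, z :: zs => a :: z :: inter as zs
  | _, _ => []

theorem inter_perm {Λ : Type} (as zs : List Λ) (h : as.length = zs.length) :
    (inter as zs).Perm (as ++ zs) := by
  induction as generalizing zs with
  | nil =>
    cases zs with
    | nil => exact List.Perm.refl _
    | cons z zs => simp at h
  | cons a as ih =>
    cases zs with
    | nil => simp at h
    | cons z zs =>
      show (a :: z :: inter as zs).Perm (a :: (as ++ z :: zs))
      refine List.Perm.cons a ?_
      exact ((ih zs (by simpa using h)).cons z).trans List.perm_middle.symm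

theorem run_inter {Λ : Type} (kd : Λ → Let) (as zs : List Λ) (ha : ∀ x ∈ as, kd x = .a)
    (hz : ∀ x ∈ zs, kd x = .z) : run .N1 ((inter as zs).map kd) = some .N1 := by
  induction as generalizing zs with
  | nil => cases zs <;> rfl
  | cons a as ih =>
    cases zs with
    | nil => rfl
    | cons z zs =>
      show (step .N1 (kd a)).bind (fun S' => (step S' (kd z)).bind
        (fun S'' => run S'' ((inter as zs).map kd))) = some .N1
      rw [ha a (by simp)]
      show (step .X (kd z)).bind (fun S'' => run S'' ((inter as zs).map kd)) = some .N1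
      rw [hz z (by simp)]
      exact ih zs (fun x hx => ha x (by simp [hx])) (fun x hx => hz x (by simp [hx]))

/-- The list of a phase. -/
structure IsPh {Λ : Type} (S : Finset Λ) (kd : Λ → Let) (fl : Λ → Prop) (q q' : St)
    (l : List Λ) : Prop where
  nd : l.Nodup
  mem : ∀ x, x ∈ l ↔ x ∈ S
  run : run q (l.map kd) = some q'
  sp : ∃ l1 l2, l = l1 ++ l2 ∧ 3 ≤ l1.length ∧ ∀ x ∈ l1, fl x

theorem toList_of_card_one {Λ : Type} {S : Finset Λ} (h : S.card = 1) :
    ∃ x, S.toList = [x] ∧ x ∈ S := by
  obtain ⟨x, hx⟩ := Finset.card_eq_one.1 h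
  exact ⟨x, by rw [hx]; simp, by rw [hx]; simp⟩

theorem toList_of_card_zero {Λ : Type} {S : Finset Λ} (h : S.card = 0) : S.toList = [] := by
  rw [Finset.card_eq_zero.1 h]; simp

section
variable {Λ : Type} [DecidableEq Λ] (S : Finset Λ) (kd : Λ → Let) (fl : Λ → Prop)
  [DecidablePred fl]

/-- fillers, other neutral letters, the rest -/
noncomputable def base (n : Let) : List Λ :=
  (S.filter (fun x => fl x)).toList ++ (S.filter (fun x => ¬ fl x ∧ kd x = n)).toList

noncomputable def cls (n : Let) : List Λ := (S.filter (fun x => kd x = n)).toList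

theorem mem_cls {n : Let} {x : Λ} : x ∈ cls S kd n ↔ x ∈ S ∧ kd x = n := by
  simp [cls]

theorem nodup_cls {n : Let} : (cls S kd n).Nodup := Finset.nodup_toList _

theorem mem_base {n : Let} {x : Λ} (hf : ∀ x ∈ S, fl x → kd x = n) :
    x ∈ base S kd fl n ↔ x ∈ S ∧ kd x = n := by
  simp only [base, List.mem_append, Finset.mem_toList, Finset.mem_filter]
  constructor
  · rintro (⟨h1, h2⟩ | ⟨h1, _, h3⟩)
    · exact ⟨h1, hf x h1 h2⟩
    · exact ⟨h1, h3⟩
  · rintro ⟨h1, h2⟩
    by_cases h : fl x
    · exact Or.inl ⟨h1, h⟩
    · exact Or.inr ⟨h1, h, h2⟩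

theorem nodup_base {n : Let} : (base S kd fl n).Nodup := by
  rw [base, List.nodup_append]
  refine ⟨Finset.nodup_toList _, Finset.nodup_toList _, ?_⟩
  intro x hx y hy hxy
  subst hxy
  simp only [Finset.mem_toList, Finset.mem_filter] at hx hy
  exact hy.2.1 hx.2

theorem isPh_even (hk : ∀ x ∈ S, kd x = .n1 ∨ kd x = .a ∨ kd x = .z ∨ kd x = .s)
    (hf : ∀ x ∈ S, fl x → kd x = .n1) (h3 : 3 ≤ (S.filter (fun x => fl x)).card)
    (b : Bool) (e : Bool)
    (hs : (S.filter (fun x => kd x = .s)).card = if e then 1 else 0)
    (hb : (S.filter (fun x => kd x = .a)).card = (S.filter (fun x => kd x = .z)).card)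
    (hz : b = true → (S.filter (fun x => kd x = .a)).card = 0) :
    ∃ l, IsPh S kd fl (if b then .Z1 else .N1)
      (if e then (if b then .Z2 else .N2) else (if b then .Z1 else .N1)) l := by
  classical
  have hlen : (cls S kd .a).length = (cls S kd .z).length := by
    simp only [cls, Finset.length_toList]; exact hb
  refine ⟨base S kd fl .n1 ++ (inter (cls S kd .a) (cls S kd .z) ++ cls S kd .s), ?_, ?_, ?_, ?_⟩
  · -- Nodup
    have hp := inter_perm _ _ hlen
    have hn : (inter (cls S kd .a) (cls S kd .z)).Nodup := by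
      rw [hp.nodup_iff, List.nodup_append]
      refine ⟨nodup_cls S kd, nodup_cls S kd, ?_⟩
      intro x hx y hy hxy
      subst hxy
      rw [mem_cls] at hx hy
      rw [hx.2] at hy
      exact absurd hy.2 (by decide)
    rw [List.nodup_append]
    refine ⟨nodup_base S kd fl, ?_, ?_⟩
    · rw [List.nodup_append]
      refine ⟨hn, nodup_cls S kd, ?_⟩
      intro x hx y hy hxy
      subst hxy
      rw [hp.mem_iff, List.mem_append, mem_cls, mem_cls] at hx
      rw [mem_cls] at hy
      rcases hx with hx | hx <;> (rw [hx.2] at hy; exact absurd hy.2 (by decide))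
    · intro x hx y hy hxy
      subst hxy
      rw [mem_base S kd fl hf] at hx
      rw [List.mem_append, hp.mem_iff, List.mem_append, mem_cls, mem_cls, mem_cls] at hy
      rcases hy with (hy | hy) | hy <;> (rw [hx.2] at hy; exact absurd hy.2 (by decide))
  · intro x
    have hp := inter_perm _ _ hlen
    rw [List.mem_append, List.mem_append, hp.mem_iff, List.mem_append, mem_cls, mem_cls, mem_cls,
      mem_base S kd fl hf]
    constructor
    · rintro (h | (h | h) | h) <;> exact h.1
    · intro h
      rcases hk x h with h1 | h1 | h1 | h1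
      · exact Or.inl ⟨h, h1⟩
      · exact Or.inr (Or.inl (Or.inl ⟨h, h1⟩))
      · exact Or.inr (Or.inl (Or.inr ⟨h, h1⟩))
      · exact Or.inr (Or.inr ⟨h, h1⟩)
  · rw [List.map_append, List.map_append]
    have h1 : run (if b then .Z1 else .N1) ((base S kd fl .n1).map kd) =
        some (if b then .Z1 else .N1) := by
      apply run_loop
      intro x hx
      obtain ⟨y, hy, rfl⟩ := List.mem_map.1 hx
      rw [((mem_base S kd fl hf).1 hy).2]
      cases b <;> rfl
    have h2 : run (if b then .Z1 else .N1) ((inter (cls S kd .a) (cls S kd .z)).map kd) =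
        some (if b then .Z1 else .N1) := by
      cases hbb : b with
      | false =>
        exact run_inter kd _ _ (fun x hx => ((mem_cls S kd).1 hx).2)
          (fun x hx => ((mem_cls S kd).1 hx).2)
      | true =>
        have h0 : cls S kd .a = [] := toList_of_card_zero (hz hbb)
        have h0' : cls S kd .z = [] := by
          apply List.eq_nil_of_length_eq_zero
          rw [← hlen, h0]; rfl
        rw [h0, h0']; rfl
    have h4 : run (if b then .Z1 else .N1) ((cls S kd .s).map kd) =
        some (if e then (if b then .Z2 else .N2) else (if b then .Z1 else .N1)) := by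
      cases he : e with
      | false =>
        rw [he] at hs
        have : cls S kd .s = [] := toList_of_card_zero hs
        rw [this]; rfl
      | true =>
        rw [he] at hs
        obtain ⟨x, hx, hx2⟩ := toList_of_card_one hs
        have hc : cls S kd .s = [x] := hx
        have : kd x = .s := (Finset.mem_filter.1 hx2).2
        rw [hc, List.map_singleton, this]
        cases b <;> rfl
    exact run_append_some h1 (run_append_some h2 h4)
  · refine ⟨(S.filter (fun x => fl x)).toList,
      (S.filter (fun x => ¬ fl x ∧ kd x = .n1)).toList ++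
        (inter (cls S kd .a) (cls S kd .z) ++ cls S kd .s), ?_, ?_, ?_⟩
    · rw [base, List.append_assoc]
    · rw [Finset.length_toList]; exact h3
    · intro x hx
      rw [Finset.mem_toList, Finset.mem_filter] at hx
      exact hx.2

theorem isPh_odd (hk : ∀ x ∈ S, kd x = .n2 ∨ kd x = .up ∨ kd x = .dn ∨ kd x = .r)
    (hf : ∀ x ∈ S, fl x → kd x = .n2) (h3 : 3 ≤ (S.filter (fun x => fl x)).card)
    (b b' : Bool) (hr : (S.filter (fun x => kd x = .r)).card = 1)
    (hu : (S.filter (fun x => kd x = .up)).card = if b = false ∧ b' = true then 1 else 0)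
    (hd : (S.filter (fun x => kd x = .dn)).card = if b = true ∧ b' = false then 1 else 0) :
    ∃ l, IsPh S kd fl (if b then .Z2 else .N2) (if b' then .Z1 else .N1) l := by
  classical
  refine ⟨base S kd fl .n2 ++ (cls S kd .up ++ (cls S kd .dn ++ cls S kd .r)), ?_, ?_, ?_, ?_⟩
  · rw [List.nodup_append, List.nodup_append, List.nodup_append]
    refine ⟨nodup_base S kd fl, ⟨nodup_cls S kd, ⟨nodup_cls S kd, nodup_cls S kd, ?_⟩, ?_⟩, ?_⟩
    · intro x hx y hy hxy
      subst hxy
      rw [mem_cls] at hx hy
      rw [hx.2] at hy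
      exact absurd hy.2 (by decide)
    · intro x hx y hy hxy
      subst hxy
      rw [List.mem_append, mem_cls, mem_cls] at hy
      rw [mem_cls] at hx
      rcases hy with hy | hy <;> (rw [hx.2] at hy; exact absurd hy.2 (by decide))
    · intro x hx y hy hxy
      subst hxy
      rw [mem_base S kd fl hf] at hx
      rw [List.mem_append, List.mem_append, mem_cls, mem_cls, mem_cls] at hy
      rcases hy with hy | hy | hy <;> (rw [hx.2] at hy; exact absurd hy.2 (by decide))
  · intro x
    rw [List.mem_append, List.mem_append, List.mem_append, mem_cls, mem_cls, mem_cls,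
      mem_base S kd fl hf]
    constructor
    · rintro (h | h | h | h) <;> exact h.1
    · intro h
      rcases hk x h with h1 | h1 | h1 | h1
      · exact Or.inl ⟨h, h1⟩
      · exact Or.inr (Or.inl ⟨h, h1⟩)
      · exact Or.inr (Or.inr (Or.inl ⟨h, h1⟩))
      · exact Or.inr (Or.inr (Or.inr ⟨h, h1⟩))
  · rw [List.map_append, List.map_append, List.map_append]
    have h1 : run (if b then .Z2 else .N2) ((base S kd fl .n2).map kd) =
        some (if b then .Z2 else .N2) := by
      apply run_loop
      intro x hx
      obtain ⟨y, hy, rfl⟩ := List.mem_map.1 hx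
      rw [((mem_base S kd fl hf).1 hy).2]
      cases b <;> rfl
    obtain ⟨xr, hxr, hxr2⟩ := toList_of_card_one hr
    have hcr : cls S kd .r = [xr] := hxr
    have hkr : kd xr = .r := (Finset.mem_filter.1 hxr2).2
    refine run_append_some h1 ?_
    rw [hcr, List.map_singleton, hkr]
    cases b with
    | false =>
      have hd0 : cls S kd .dn = [] := toList_of_card_zero (by rw [hd]; simp)
      rw [hd0]
      cases b' with
      | false =>
        have hu0 : cls S kd .up = [] := toList_of_card_zero (by rw [hu]; simp)
        rw [hu0]; rfl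
      | true =>
        obtain ⟨x, hx, hx2⟩ := toList_of_card_one (S := S.filter (fun x => kd x = .up))
          (by rw [hu]; simp)
        have hc : cls S kd .up = [x] := hx
        have : kd x = .up := (Finset.mem_filter.1 hx2).2
        rw [hc, List.map_singleton, this]; rfl
    | true =>
      have hu0 : cls S kd .up = [] := toList_of_card_zero (by rw [hu]; simp)
      rw [hu0]
      cases b' with
      | true =>
        have hd0 : cls S kd .dn = [] := toList_of_card_zero (by rw [hd]; simp)
        rw [hd0]; rfl
      | false =>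
        obtain ⟨x, hx, hx2⟩ := toList_of_card_one (S := S.filter (fun x => kd x = .dn))
          (by rw [hd]; simp)
        have hc : cls S kd .dn = [x] := hx
        have : kd x = .dn := (Finset.mem_filter.1 hx2).2
        rw [hc, List.map_singleton, this]; rfl
  · refine ⟨(S.filter (fun x => fl x)).toList,
      (S.filter (fun x => ¬ fl x ∧ kd x = .n2)).toList ++
        (cls S kd .up ++ (cls S kd .dn ++ cls S kd .r)), ?_, ?_, ?_⟩
    · rw [base, List.append_assoc]
    · rw [Finset.length_toList]; exact h3
    · intro x hx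
      rw [Finset.mem_toList, Finset.mem_filter] at hx
      exact hx.2

end

/-- Concatenation of the lists of the phases. -/
theorem concat {Λ : Type} [DecidableEq Λ] (T : Finset Λ) (kd : Λ → Let) (ph : Λ → ℕ)
    (fl : Λ → Prop) (st : ℕ → St) (n : ℕ)
    (h : ∀ p < n, ∃ l, IsPh (T.filter (fun x => ph x = p)) kd fl (st p) (st (p + 1)) l) :
    ∃ l : List Λ, l.Nodup ∧ (∀ x, x ∈ l ↔ x ∈ T ∧ ph x < n) ∧
      run (st 0) (l.map kd) = some (st n) ∧
      ∀ x ∈ T, ∀ y ∈ T, ph y < n → ph x < ph y → ¬ fl y → l.idxOf x + 4 ≤ l.idxOf y := by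
  induction n with
  | zero => exact ⟨[], List.nodup_nil, by simp, rfl, by simp⟩
  | succ n ih =>
    obtain ⟨l, hn, hm, hr, hg⟩ := ih (fun p hp => h p (by omega))
    obtain ⟨m, hP⟩ := h n (by omega)
    have hdis : ∀ x ∈ l, x ∉ m := by
      intro x hx hx'
      have h1 := (hm x).1 hx
      have h2 := (hP.mem x).1 hx'
      rw [Finset.mem_filter] at h2
      omega
    refine ⟨l ++ m, ?_, ?_, ?_, ?_⟩
    · rw [List.nodup_append]
      refine ⟨hn, hP.nd, ?_⟩
      intro x hx y hy hxy
      subst hxy
      exact hdis x hx hy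
    · intro x
      rw [List.mem_append, hm, hP.mem, Finset.mem_filter]
      constructor
      · rintro (⟨h1, h2⟩ | ⟨h1, h2⟩)
        · exact ⟨h1, by omega⟩
        · exact ⟨h1, by omega⟩
      · rintro ⟨h1, h2⟩
        by_cases h3 : ph x < n
        · exact Or.inl ⟨h1, h3⟩
        · exact Or.inr ⟨h1, by omega⟩
    · rw [List.map_append]
      exact run_append_some hr hP.run
    · intro x hx y hy hyn hxy hfy
      have hxl : x ∈ l := (hm x).2 ⟨hx, by omega⟩
      by_cases hyn' : ph y < n
      · have hyl : y ∈ l := (hm y).2 ⟨hy, hyn'⟩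
        rw [List.idxOf_append_of_mem hxl, List.idxOf_append_of_mem hyl]
        exact hg x hx y hy hyn' hxy hfy
      · have hyl : y ∉ l := fun hc => hyn' ((hm y).1 hc).2
        rw [List.idxOf_append_of_mem hxl, List.idxOf_append_of_notMem hyl]
        have h1 : l.idxOf x < l.length := List.idxOf_lt_length_iff.2 hxl
        obtain ⟨l1, l2, h2, h3, h4⟩ := hP.sp
        have h5 : 3 ≤ m.idxOf y := by
          rw [h2]
          have hy1 : y ∉ l1 := fun hc => hfy (h4 y hc)
          rw [List.idxOf_append_of_notMem hy1]
          omega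
        omega

/-- the states between the phases -/
def st (E : ℕ) (zs : ℕ → Bool) (p : ℕ) : St := if p = 2 * E + 1 then .N1 else
    if p % 2 = 0 then (if zs (p / 2) then .Z1 else .N1) else (if zs (p / 2) then .Z2 else .N2)

theorem st_even (E : ℕ) (zs : ℕ → Bool) (t : ℕ) : st E zs (2 * t) = if zs t then .Z1 else .N1 := by
  unfold st
  rw [if_neg (by omega), if_pos (by omega), show 2 * t / 2 = t by omega]

theorem st_odd (E : ℕ) (zs : ℕ → Bool) (t : ℕ) (ht : t < E) :
    st E zs (2 * t + 1) = if zs t then .Z2 else .N2 := by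
  unfold st
  rw [if_neg (by omega), if_neg (by omega), show (2 * t + 1) / 2 = t by omega]

theorem st_last (E : ℕ) (zs : ℕ → Bool) : st E zs (2 * E + 1) = .N1 := by
  unfold st
  rw [if_pos rfl]

end F1

/-- module F1: from phases to an order of the letters -/
theorem order_of_phases {Λ : Type} [DecidableEq Λ] (T : Finset Λ) (kd : Λ → Let) (ph : Λ → ℕ)
    (fl : Λ → Prop) [DecidablePred fl] (E : ℕ) (zs : ℕ → Bool)
    (hph : ∀ x ∈ T, ph x ≤ 2 * E)
    (heven : ∀ x ∈ T, ph x % 2 = 0 → kd x = .n1 ∨ kd x = .a ∨ kd x = .z ∨ kd x = .s)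
    (hodd : ∀ x ∈ T, ph x % 2 = 1 → kd x = .n2 ∨ kd x = .up ∨ kd x = .dn ∨ kd x = .r)
    (hfl : ∀ x ∈ T, fl x → kd x = .n1 ∨ kd x = .n2)
    (hfl3 : ∀ p ≤ 2 * E, 3 ≤ (T.filter (fun x => ph x = p ∧ fl x)).card)
    (hs : ∀ t < E, (T.filter (fun x => ph x = 2 * t ∧ kd x = .s)).card = 1)
    (hsE : (T.filter (fun x => ph x = 2 * E ∧ kd x = .s)).card = 0)
    (hr : ∀ t < E, (T.filter (fun x => ph x = 2 * t + 1 ∧ kd x = .r)).card = 1)
    (hbal : ∀ t ≤ E, (T.filter (fun x => ph x = 2 * t ∧ kd x = .a)).card =
      (T.filter (fun x => ph x = 2 * t ∧ kd x = .z)).card)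
    (hblk : ∀ t ≤ E, zs t = true → (T.filter (fun x => ph x = 2 * t ∧ kd x = .a)).card = 0)
    (hup : ∀ t < E, (T.filter (fun x => ph x = 2 * t + 1 ∧ kd x = .up)).card =
      if zs t = false ∧ zs (t + 1) = true then 1 else 0)
    (hdn : ∀ t < E, (T.filter (fun x => ph x = 2 * t + 1 ∧ kd x = .dn)).card =
      if zs t = true ∧ zs (t + 1) = false then 1 else 0)
    (h0 : zs 0 = false) (hE : zs E = false) :
    ∃ l : List Λ, l.Nodup ∧ (∀ x, x ∈ l ↔ x ∈ T) ∧ run .N1 (l.map kd) = some .N1 ∧
      ∀ x ∈ T, ∀ y ∈ T, ph x < ph y → ¬ fl y → l.idxOf x + 4 ≤ l.idxOf y := by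
  classical
  set st : ℕ → St := F1.st E zs with hst
  have hff : ∀ (p : ℕ) (n : Let), (T.filter (fun x => ph x = p)).filter (fun x => kd x = n) =
      T.filter (fun x => ph x = p ∧ kd x = n) := fun p n => by rw [Finset.filter_filter]
  have hff' : ∀ (p : ℕ), (T.filter (fun x => ph x = p)).filter (fun x => fl x) =
      T.filter (fun x => ph x = p ∧ fl x) := fun p => by rw [Finset.filter_filter]
  have key : ∀ p < 2 * E + 1,
      ∃ l, F1.IsPh (T.filter (fun x => ph x = p)) kd fl (st p) (st (p + 1)) l := by
    intro p hp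
    rcases Nat.even_or_odd' p with ⟨t, rfl | rfl⟩
    · have h1 : st (2 * t) = if zs t then .Z1 else .N1 := F1.st_even E zs t
      have hk : ∀ x ∈ T.filter (fun x => ph x = 2 * t), kd x = .n1 ∨ kd x = .a ∨ kd x = .z ∨
          kd x = .s := fun x hx => by
        rw [Finset.mem_filter] at hx
        exact heven x hx.1 (by omega)
      have hf : ∀ x ∈ T.filter (fun x => ph x = 2 * t), fl x → kd x = .n1 := fun x hx hfx => by
        rcases hfl x (Finset.mem_filter.1 hx).1 hfx with h | h
        · exact h
        · rcases hk x hx with h' | h' | h' | h' <;> rw [h'] at h <;> exact absurd h (by decide)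
      by_cases ht : t < E
      · have h2 : st (2 * t + 1) = if zs t then .Z2 else .N2 := F1.st_odd E zs t ht
        rw [h1, h2]
        exact F1.isPh_even _ kd fl hk hf (by rw [hff']; exact hfl3 _ (by omega)) (zs t) true
          (by rw [hff]; exact hs t ht) (by rw [hff, hff]; exact hbal t ht.le)
          (fun h => by rw [hff]; exact hblk t ht.le h)
      · have hte : t = E := by omega
        subst hte
        have h2 : st (2 * t + 1) = if zs t then .Z1 else .N1 := by
          rw [hE]; exact F1.st_last t zs
        rw [h1, h2]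
        exact F1.isPh_even _ kd fl hk hf (by rw [hff']; exact hfl3 _ (by omega)) (zs t) false
          (by rw [hff]; exact hsE) (by rw [hff, hff]; exact hbal t le_rfl)
          (fun h => by rw [hff]; exact hblk t le_rfl h)
    · have ht : t < E := by omega
      have h1 : st (2 * t + 1) = if zs t then .Z2 else .N2 := F1.st_odd E zs t ht
      have h2 : st (2 * t + 1 + 1) = if zs (t + 1) then .Z1 else .N1 := F1.st_even E zs (t + 1)
      have hk : ∀ x ∈ T.filter (fun x => ph x = 2 * t + 1), kd x = .n2 ∨ kd x = .up ∨
          kd x = .dn ∨ kd x = .r := fun x hx => by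
        rw [Finset.mem_filter] at hx
        exact hodd x hx.1 (by omega)
      have hf : ∀ x ∈ T.filter (fun x => ph x = 2 * t + 1), fl x → kd x = .n2 :=
        fun x hx hfx => by
          rcases hfl x (Finset.mem_filter.1 hx).1 hfx with h | h
          · rcases hk x hx with h' | h' | h' | h' <;> rw [h'] at h <;> exact absurd h (by decide)
          · exact h
      rw [h1, h2]
      exact F1.isPh_odd _ kd fl hk hf (by rw [hff']; exact hfl3 _ (by omega)) (zs t) (zs (t + 1))
        (by rw [hff]; exact hr t ht) (by rw [hff]; exact hup t ht) (by rw [hff]; exact hdn t ht)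
  obtain ⟨l, hn, hm, hrun, hg⟩ := F1.concat T kd ph fl st (2 * E + 1) key
  have hst0 : st 0 = .N1 := by
    have := F1.st_even E zs 0
    rw [h0] at this
    exact this
  have hstE : st (2 * E + 1) = .N1 := F1.st_last E zs
  refine ⟨l, hn, ?_, ?_, ?_⟩
  · intro x
    rw [hm]
    constructor
    · exact fun h => h.1
    · intro h
      have := hph x h
      exact ⟨h, by omega⟩
  · rw [hst0, hstE] at hrun; exact hrun
  · intro x hx y hy hxy hfy
    have := hph y hy
    exact hg x hx y hy (by omega) hxy hfy

end Pool.Agent.helper66.JS
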