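import Pool.Agent.helper66.JS.Defs2

/-!
# Module J1: runs give a strong phase solution
-/

set_option autoImplicit false

namespace Pool.Agent.helper66.JS

open Finset

namespace J1

theorem eucl {P c v c' v' : ℕ} (h : c * P + v = c' * P + v') (hv : v < P) (hv' : v' < P) :
    c = c' ∧ v = v' := by
  rcases lt_trichotomy c c' with h1 | h1 | h1
  · have := Nat.mul_le_mul_right P (Nat.succ_le_of_lt h1)
    rw [Nat.succ_mul] at this
    omega
  · subst h1; exact ⟨rfl, by omega⟩
  · have := Nat.mul_le_mul_right P (Nat.succ_le_of_lt h1)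
    rw [Nat.succ_mul] at this
    omega

theorem sum_map_range (f : ℕ → ℕ) (k : ℕ) :
    ((List.range k).map f).sum = ∑ i ∈ Finset.range k, f i := by
  induction k with
  | zero => simp
  | succ k ih => rw [List.range_succ, List.map_append, List.sum_append, ih,
      Finset.sum_range_succ]; simp

theorem countP_flatMap_range {α : Type} (f : ℕ → List α) (q : α → Bool) (k : ℕ) :
    ((List.range k).flatMap f).countP q = ∑ i ∈ Finset.range k, (f i).countP q := by
  rw [List.countP_flatMap, ← sum_map_range]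
  rfl

theorem th_inj {s s' : ℕ} (h : th s = th s') : s = s' := by
  unfold th at h; omega

variable (n : Net) (rs : ℕ → List ℕ)

theorem zl_eq : n.zl = 2 * n.a + 4 := rfl

theorem P_eq : n.P = n.Zn * n.zl := rfl

theorem th_lt {s : ℕ} (hs : s < n.a) : th s < n.zl := by
  rw [zl_eq]; unfold th; omega

theorem pos_lt {z ρ : ℕ} (hz : z < n.Zn) (hρ : ρ < n.zl) : z * n.zl + ρ < n.P := by
  have := Nat.mul_le_mul_right n.zl (Nat.succ_le_of_lt hz)
  rw [Nat.succ_mul] at this
  rw [P_eq]
  omega

theorem uniq {c z ρ c' z' ρ' : ℕ} (h : c * n.P + z * n.zl + ρ = c' * n.P + z' * n.zl + ρ')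
    (hz : z < n.Zn) (hz' : z' < n.Zn) (hρ : ρ < n.zl) (hρ' : ρ' < n.zl) :
    c = c' ∧ z = z' ∧ ρ = ρ' := by
  rw [add_assoc, add_assoc] at h
  obtain ⟨h1, h2⟩ := eucl h (pos_lt n hz hρ) (pos_lt n hz' hρ')
  obtain ⟨h3, h4⟩ := eucl h2 hρ hρ'
  exact ⟨h1, h3, h4⟩

/-- the contributions inside a zone -/
def loc (c : ℕ) (w : ℕ → ℕ) (ρ : ℕ) : ℕ :=
  (if ρ = 0 then c else 0) + (if ρ = 1 then c else 0) +
    ∑ s ∈ Finset.range n.a, if ρ = th s then w s else 0

theorem loc_add (c c' : ℕ) (w w' : ℕ → ℕ) (ρ : ℕ) :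
    loc n c w ρ + loc n c' w' ρ = loc n (c + c') (fun s => w s + w' s) ρ := by
  unfold loc
  have : (∑ s ∈ Finset.range n.a, if ρ = th s then w s + w' s else 0) =
      (∑ s ∈ Finset.range n.a, if ρ = th s then w s else 0) +
        ∑ s ∈ Finset.range n.a, if ρ = th s then w' s else 0 := by
    rw [← Finset.sum_add_distrib]
    refine Finset.sum_congr rfl fun s _ => ?_
    split_ifs <;> simp
  rw [this]
  split_ifs <;> omega

theorem loc_congr {c c' : ℕ} {w w' : ℕ → ℕ} {ρ : ℕ} (h : c = c') (h' : ∀ s < n.a, w s = w' s) :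
    loc n c w ρ = loc n c' w' ρ := by
  unfold loc
  rw [h]
  congr 1
  refine Finset.sum_congr rfl fun s hs => ?_
  rw [h' s (Finset.mem_range.1 hs)]

theorem loc_zero (ρ : ℕ) : loc n 0 (fun _ => 0) ρ = 0 := by
  unfold loc; simp

theorem loc_th {c : ℕ} {w : ℕ → ℕ} {l : ℕ} (hl : l < n.a) : loc n c w (th l) = w l := by
  unfold loc
  rw [if_neg (by unfold th; omega), if_neg (by unfold th; omega),
    Finset.sum_eq_single l (fun s _ hs => if_neg (fun h => hs (th_inj h).symm))
      (fun h => absurd (Finset.mem_range.2 hl) h), if_pos rfl]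
  omega

theorem loc_ind (c : ℕ) (p : ℕ → Prop) [DecidablePred p] (hp : ∀ s, p s → s < n.a) (ρ : ℕ)
    [Decidable (∃ s, p s ∧ ρ = th s)] :
    loc n c (fun s => if p s then 1 else 0) ρ = (if ρ = 0 then c else 0) +
      (if ρ = 1 then c else 0) + (if ∃ s, p s ∧ ρ = th s then 1 else 0) := by
  unfold loc
  congr 1
  by_cases h : ∃ s, p s ∧ ρ = th s
  · obtain ⟨s, h1, h2⟩ := h
    rw [if_pos ⟨s, h1, h2⟩, Finset.sum_eq_single s]
    · simp only [h2, h1, if_true]
    · intro s' _ hs'
      rw [if_neg]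
      intro h3
      exact hs' (th_inj (h3.symm.trans h2))
    · intro h3
      exact absurd (Finset.mem_range.2 (hp s h1)) h3
  · rw [if_neg h]
    refine Finset.sum_eq_zero fun s _ => ?_
    by_cases h2 : ρ = th s
    · have h3 : ¬ p s := fun h3 => h ⟨s, h3, h2⟩
      simp only [h2, h3, if_true, if_false]
    · rw [if_neg h2]

/-- the contributions of all zones -/
def zc (ctl : ℕ → ℕ) (w : ℕ → ℕ → ℕ) (u : ℕ) : ℕ :=
  ∑ z ∈ Finset.range n.Zn, ((if u = z * n.zl then ctl z else 0) +
    (if u = z * n.zl + 1 then ctl z else 0) +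
    ∑ s ∈ Finset.range n.a, if u = z * n.zl + th s then w z s else 0)

theorem zc_eval (ctl : ℕ → ℕ) (w : ℕ → ℕ → ℕ) {z ρ : ℕ} (hz : z < n.Zn) (hρ : ρ < n.zl) :
    zc n ctl w (z * n.zl + ρ) = loc n (ctl z) (w z) ρ := by
  unfold zc
  have h0 : 0 < n.zl := by rw [zl_eq]; omega
  have h1 : 1 < n.zl := by rw [zl_eq]; omega
  rw [Finset.sum_eq_single z]
  · unfold loc
    have e1 : (z * n.zl + ρ = z * n.zl) = (ρ = 0) := by
      apply propext; constructor <;> intro h <;> omega
    have e2 : (z * n.zl + ρ = z * n.zl + 1) = (ρ = 1) := by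
      apply propext; constructor <;> intro h <;> omega
    simp only [e1, e2]
    congr 1
    refine Finset.sum_congr rfl fun s _ => ?_
    have e3 : (z * n.zl + ρ = z * n.zl + th s) = (ρ = th s) := by
      apply propext; constructor <;> intro h <;> omega
    simp only [e3]
  · intro z' _ hzz
    have k1 : ¬ (z * n.zl + ρ = z' * n.zl) := fun h =>
      hzz (eucl (v' := 0) (by rw [h]; rfl) hρ h0).1.symm
    have k2 : ¬ (z * n.zl + ρ = z' * n.zl + 1) := fun h => hzz (eucl h hρ h1).1.symm
    have k3 : (∑ s ∈ Finset.range n.a,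
        if z * n.zl + ρ = z' * n.zl + th s then w z' s else 0) = 0 := by
      refine Finset.sum_eq_zero fun s hs => if_neg ?_
      exact fun h => hzz (eucl h hρ (th_lt n (Finset.mem_range.1 hs))).1.symm
    rw [if_neg k1, if_neg k2, k3, add_zero, add_zero]
  · intro h
    exact absurd (Finset.mem_range.2 hz) h

theorem zc_big (ctl : ℕ → ℕ) (w : ℕ → ℕ → ℕ) {u : ℕ} (hu : n.P ≤ u) : zc n ctl w u = 0 := by
  unfold zc
  have h0 : 0 < n.zl := by rw [zl_eq]; omega
  have h1 : 1 < n.zl := by rw [zl_eq]; omega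
  refine Finset.sum_eq_zero fun z hz => ?_
  have hz' := Finset.mem_range.1 hz
  have k1 := pos_lt n hz' h0
  have k2 := pos_lt n hz' h1
  have k4 : (∑ s ∈ Finset.range n.a, if u = z * n.zl + th s then w z s else 0) = 0 := by
    refine Finset.sum_eq_zero fun s hs => if_neg ?_
    have k3 := pos_lt n hz' (th_lt n (Finset.mem_range.1 hs))
    omega
  rw [if_neg (by omega), if_neg (by omega), k4, add_zero, add_zero]

/-! ### The words `tw` -/

/-- control tokens that stay in round `c` -/
def ctlT (c z : ℕ) : ℕ := if c / 2 < (rs z).length then 0 else 1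

open Classical in
/-- ordinary tokens that stay in round `c` -/
noncomputable def wT (c z s : ℕ) : ℕ := n.mrk rs z c s - if n.taken rs z c s then 1 else 0

theorem cnt_ST (f : WD → Finset ℕ) (δ : ℕ) (hf : f n.tw = {δ}) (t : ℕ) :
    cntAt (n.ST rs) f t = ∑ c ∈ Finset.range n.Cyc, ∑ z ∈ Finset.range n.Zn,
      ((if t = c * n.P + z * n.zl + δ then ctlT rs c z else 0) +
        (if t = c * n.P + z * n.zl + 1 + δ then ctlT rs c z else 0) +
        ∑ s ∈ Finset.range n.a, if t = c * n.P + z * n.zl + th s + δ then wT n rs c z s else 0) := by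
  classical
  rw [Finset.sum_comm]
  unfold cntAt Net.ST
  have hq : ∀ p : ℕ, (decide (p ≤ t ∧ t - p ∈ f n.tw) : Bool) = decide (t = p + δ) := by
    intro p
    rw [hf]
    apply decide_eq_decide.2
    rw [Finset.mem_singleton]
    omega
  rw [countP_flatMap_range]
  refine Finset.sum_congr rfl fun z _ => ?_
  rw [countP_flatMap_range]
  refine Finset.sum_congr rfl fun c _ => ?_
  rw [List.countP_append, countP_flatMap_range]
  congr 1
  · unfold ctlT
    by_cases h : c / 2 < (rs z).length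
    · rw [if_pos h]; simp [h]
    · rw [if_neg h]
      simp only [List.countP_cons, List.countP_nil, hq, decide_eq_true_eq, h, if_false]
      omega
  · refine Finset.sum_congr rfl fun s _ => ?_
    rw [List.countP_replicate]
    simp only [hq, decide_eq_true_eq]
    rfl

/-- positions `t - δ` inside round `c` -/
theorem cnt_ST_eval (f : WD → Finset ℕ) (δ : ℕ) (hf : f n.tw = {δ}) {c z ρ : ℕ} (hz : z < n.Zn)
    (hρ : ρ < n.zl) : cntAt (n.ST rs) f (c * n.P + z * n.zl + ρ + δ) =
      if c < n.Cyc then loc n (ctlT rs c z) (wT n rs c z) ρ else 0 := by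
  rw [cnt_ST n rs f δ hf]
  have hv := pos_lt n hz hρ
  have h0 : 0 < n.zl := by rw [zl_eq]; omega
  have h1 : 1 < n.zl := by rw [zl_eq]; omega
  have key : ∀ c' z', z' < n.Zn → ∀ x < n.zl,
      (c * n.P + z * n.zl + ρ + δ = c' * n.P + z' * n.zl + x + δ) =
        (c = c' ∧ z * n.zl + ρ = z' * n.zl + x) := by
    intro c' z' hz' x hx
    apply propext
    constructor
    · intro h
      obtain ⟨e1, e2, e3⟩ := uniq n (by omega : c * n.P + z * n.zl + ρ = c' * n.P + z' * n.zl + x)
        hz hz' hρ hx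
      subst e1; subst e2; subst e3
      exact ⟨rfl, rfl⟩
    · rintro ⟨rfl, h⟩
      omega
  have step : ∀ c' ∈ Finset.range n.Cyc, (∑ z' ∈ Finset.range n.Zn,
      ((if c * n.P + z * n.zl + ρ + δ = c' * n.P + z' * n.zl + δ then ctlT rs c' z' else 0) +
        (if c * n.P + z * n.zl + ρ + δ = c' * n.P + z' * n.zl + 1 + δ then ctlT rs c' z' else 0) +
        ∑ s ∈ Finset.range n.a,
          if c * n.P + z * n.zl + ρ + δ = c' * n.P + z' * n.zl + th s + δ then
            wT n rs c' z' s else 0)) =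
      if c = c' then zc n (ctlT rs c') (wT n rs c') (z * n.zl + ρ) else 0 := by
    intro c' _
    by_cases hc : c = c'
    · subst hc
      rw [if_pos rfl]
      unfold zc
      refine Finset.sum_congr rfl fun z' hz' => ?_
      have hz'' := Finset.mem_range.1 hz'
      have k0 := key c z' hz'' 0 h0
      have k1 := key c z' hz'' 1 h1
      rw [add_zero, add_zero] at k0
      simp only [k0, k1, true_and]
      congr 1
      refine Finset.sum_congr rfl fun s hs => ?_
      have k2 := key c z' hz'' (th s) (th_lt n (Finset.mem_range.1 hs))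
      simp only [k2, true_and]
    · rw [if_neg hc]
      refine Finset.sum_eq_zero fun z' hz' => ?_
      have hz'' := Finset.mem_range.1 hz'
      have k0 := key c' z' hz'' 0 h0
      have k1 := key c' z' hz'' 1 h1
      rw [add_zero, add_zero] at k0
      have k3 : (∑ s ∈ Finset.range n.a,
          if c * n.P + z * n.zl + ρ + δ = c' * n.P + z' * n.zl + th s + δ then
            wT n rs c' z' s else 0) = 0 := by
        refine Finset.sum_eq_zero fun s hs => if_neg ?_
        rw [key c' z' hz'' (th s) (th_lt n (Finset.mem_range.1 hs))]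
        exact fun h => hc h.1
      rw [k3, if_neg (by rw [k0]; exact fun h => hc h.1),
        if_neg (by rw [k1]; exact fun h => hc h.1), add_zero,
        add_zero]
  rw [Finset.sum_congr rfl step, Finset.sum_ite_eq]
  simp only [Finset.mem_range]
  by_cases hc : c < n.Cyc
  · rw [if_pos hc, if_pos hc, zc_eval n _ _ hz hρ]
  · rw [if_neg hc, if_neg hc]

theorem cnt_ST_small (f : WD → Finset ℕ) (δ : ℕ) (hf : f n.tw = {δ}) {t : ℕ} (ht : t < δ) :
    cntAt (n.ST rs) f t = 0 := by
  rw [cnt_ST n rs f δ hf]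
  refine Finset.sum_eq_zero fun c _ => Finset.sum_eq_zero fun z _ => ?_
  have k4 : (∑ s ∈ Finset.range n.a,
      if t = c * n.P + z * n.zl + th s + δ then wT n rs c z s else 0) = 0 :=
    Finset.sum_eq_zero fun s _ => if_neg (by omega)
  rw [if_neg (by omega), if_neg (by omega), k4, add_zero, add_zero]

theorem cnt_ST_empty (f : WD → Finset ℕ) (hf : f n.tw = ∅) (t : ℕ) :
    cntAt (n.ST rs) f t = 0 := by
  classical
  unfold cntAt
  rw [List.countP_eq_zero]
  intro p hp
  have : p.1 = n.tw := by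
    unfold Net.ST at hp
    simp only [List.mem_flatMap, List.mem_append, List.mem_range] at hp
    obtain ⟨z, _, c, _, h | ⟨s, _, h⟩⟩ := hp
    · split_ifs at h
      · simp at h
      · simp only [List.mem_cons, List.not_mem_nil, or_false] at h
        rcases h with h | h <;> rw [h]
    · rw [(List.mem_replicate.1 h).2]
  rw [this, hf]
  simp

/-! ### Initial and final words -/

theorem cnt_SI_A (t : ℕ) : cntAt n.SI WD.A t = zc n (fun _ => 1) n.c0 t := by
  unfold cntAt Net.SI Net.WI zc
  rw [List.countP_map, countP_flatMap_range]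
  refine Finset.sum_congr rfl fun z _ => ?_
  rw [List.countP_cons, List.countP_cons, countP_flatMap_range]
  have hq : ∀ ρ : ℕ, (((fun p : WD × ℕ => decide (p.2 ≤ t ∧ t - p.2 ∈ p.1.A)) ∘
      fun w => (w, 0)) (Net.iw ρ) : Bool) = decide (t = ρ) := by
    intro ρ
    simp only [Function.comp, Net.iw]
    apply decide_eq_decide.2
    rw [Finset.mem_singleton]
    omega
  simp only [hq, decide_eq_true_eq, List.countP_replicate]
  omega

theorem cnt_SI_empty (f : WD → Finset ℕ) (hf : ∀ ρ, f (Net.iw ρ) = ∅) (t : ℕ) :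
    cntAt n.SI f t = 0 := by
  unfold cntAt
  rw [List.countP_eq_zero]
  intro p hp
  have : ∃ ρ, p.1 = Net.iw ρ := by
    unfold Net.SI Net.WI at hp
    simp only [List.mem_map, List.mem_flatMap, List.mem_range, List.mem_cons] at hp
    obtain ⟨w, ⟨z, _, h | h | ⟨s, _, h⟩⟩, h'⟩ := hp
    · exact ⟨_, by rw [← h', h]⟩
    · exact ⟨_, by rw [← h', h]⟩
    · exact ⟨_, by rw [← h', (List.mem_replicate.1 h).2]⟩
  obtain ⟨ρ, hρ⟩ := this
  rw [hρ, hf]
  simp

theorem E_sub {x : ℕ} (hx : x < n.P) : n.E - (n.P - 1 - x) = n.Cyc * n.P + x := by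
  unfold Net.E
  rw [Nat.succ_mul]
  omega

theorem cnt_SF_Z {c z ρ : ℕ} (hz : z < n.Zn) (hρ : ρ < n.zl) :
    cntAt n.SF WD.Z (c * n.P + z * n.zl + ρ) =
      if c = n.Cyc then loc n 1 (n.cf z) ρ else 0 := by
  have h0 : 0 < n.zl := by rw [zl_eq]; omega
  have h1 : 1 < n.zl := by rw [zl_eq]; omega
  have hq : ∀ z' < n.Zn, ∀ x < n.zl, (((fun p : WD × ℕ => decide (p.2 ≤ c * n.P + z * n.zl + ρ ∧
      c * n.P + z * n.zl + ρ - p.2 ∈ p.1.Z)) ∘ fun w => (w, n.E - w.K))
        (Net.fw (n.P - 1 - (z' * n.zl + x))) : Bool) =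
        decide (c = n.Cyc ∧ z * n.zl + ρ = z' * n.zl + x) := by
    intro z' hz' x hx
    simp only [Function.comp, Net.fw]
    apply decide_eq_decide.2
    rw [Finset.mem_singleton, E_sub n (pos_lt n hz' hx)]
    constructor
    · intro h
      obtain ⟨e1, e2, e3⟩ := uniq n (by omega :
        c * n.P + z * n.zl + ρ = n.Cyc * n.P + z' * n.zl + x) hz hz' hρ hx
      subst e2; subst e3
      exact ⟨e1, rfl⟩
    · rintro ⟨rfl, h⟩
      omega
  have hmain : cntAt n.SF WD.Z (c * n.P + z * n.zl + ρ) =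
      if c = n.Cyc then zc n (fun _ => 1) n.cf (z * n.zl + ρ) else 0 := by
    unfold cntAt Net.SF Net.WF
    rw [List.countP_map, countP_flatMap_range]
    by_cases hc : c = n.Cyc
    · rw [if_pos hc]
      unfold zc
      refine Finset.sum_congr rfl fun z' hz' => ?_
      have hz'' := Finset.mem_range.1 hz'
      have k0 := hq z' hz'' 0 h0
      have k1 := hq z' hz'' 1 h1
      rw [add_zero] at k0
      rw [List.countP_cons, List.countP_cons, countP_flatMap_range, k0, k1]
      have k2 : ∀ s ∈ Finset.range n.a, (List.replicate (n.cf z' s)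
          (Net.fw (n.P - 1 - (z' * n.zl + th s)))).countP
            ((fun p : WD × ℕ => decide (p.2 ≤ c * n.P + z * n.zl + ρ ∧
      c * n.P + z * n.zl + ρ - p.2 ∈ p.1.Z)) ∘ fun w => (w, n.E - w.K)) =
          if z * n.zl + ρ = z' * n.zl + th s then n.cf z' s else 0 := by
        intro s hs
        rw [List.countP_replicate, hq z' hz'' (th s) (th_lt n (Finset.mem_range.1 hs))]
        simp only [hc, true_and, decide_eq_true_eq]
      rw [Finset.sum_congr rfl k2]
      simp only [hc, true_and, decide_eq_true_eq]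
      omega
    · rw [if_neg hc]
      refine Finset.sum_eq_zero fun z' hz' => ?_
      have hz'' := Finset.mem_range.1 hz'
      have k0 := hq z' hz'' 0 h0
      have k1 := hq z' hz'' 1 h1
      rw [add_zero] at k0
      rw [List.countP_cons, List.countP_cons, countP_flatMap_range, k0, k1]
      have k2 : ∀ s ∈ Finset.range n.a, (List.replicate (n.cf z' s)
          (Net.fw (n.P - 1 - (z' * n.zl + th s)))).countP
            ((fun p : WD × ℕ => decide (p.2 ≤ c * n.P + z * n.zl + ρ ∧
      c * n.P + z * n.zl + ρ - p.2 ∈ p.1.Z)) ∘ fun w => (w, n.E - w.K)) = 0 := by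
        intro s hs
        rw [List.countP_replicate, hq z' hz'' (th s) (th_lt n (Finset.mem_range.1 hs))]
        simp only [hc, false_and, decide_false, Bool.false_eq_true, if_false]
      rw [Finset.sum_congr rfl k2]
      simp [hc]
  rw [hmain, zc_eval n _ _ hz hρ]

theorem cnt_SF_empty (f : WD → Finset ℕ) (hf : ∀ ρ, f (Net.fw ρ) = ∅) (t : ℕ) :
    cntAt n.SF f t = 0 := by
  unfold cntAt
  rw [List.countP_eq_zero]
  intro p hp
  have : ∃ ρ, p.1 = Net.fw ρ := by
    unfold Net.SF Net.WF at hp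
    simp only [List.mem_map, List.mem_flatMap, List.mem_range, List.mem_cons] at hp
    obtain ⟨w, ⟨z, _, h | h | ⟨s, _, h⟩⟩, h'⟩ := hp
    · exact ⟨_, by rw [← h', h]⟩
    · exact ⟨_, by rw [← h', h]⟩
    · exact ⟨_, by rw [← h', (List.mem_replicate.1 h).2]⟩
  obtain ⟨ρ, hρ⟩ := this
  rw [hρ, hf]
  simp

/-! ### The rule words -/

/-- the rule number `k` of zone `z` -/
def rl (z k : ℕ) : Rule := n.rule ((rs z).getD k 0)

theorem cnt_SR (f : WD → Finset ℕ) (t : ℕ) :
    cntAt (n.SR rs) f t = ∑ z ∈ Finset.range n.Zn, ∑ k ∈ Finset.range (rs z).length,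
      if 2 * k * n.P + z * n.zl ≤ t ∧ t - (2 * k * n.P + z * n.zl) ∈ f (n.rw (rl n rs z k)) then 1
        else 0 := by
  unfold cntAt Net.SR
  rw [countP_flatMap_range]
  refine Finset.sum_congr rfl fun z _ => ?_
  have : ∀ k, ((List.range k).map (fun k =>
    (n.rw (n.rule ((rs z).getD k 0)), 2 * k * n.P + z * n.zl))).countP
      (fun p : WD × ℕ => decide (p.2 ≤ t ∧ t - p.2 ∈ f p.1)) = ∑ k ∈ Finset.range k,
      if 2 * k * n.P + z * n.zl ≤ t ∧ t - (2 * k * n.P + z * n.zl) ∈ f (n.rw (rl n rs z k)) then 1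
        else 0 := by
    intro k
    induction k with
    | zero => simp
    | succ k ih =>
      rw [List.range_succ, List.map_append, List.countP_append, ih, Finset.sum_range_succ]
      congr 1
      simp only [List.map_cons, List.map_nil, List.countP_cons, List.countP_nil, zero_add,
        decide_eq_true_eq]
      rfl
  exact this _

theorem sum_single (g : ℕ → ℕ → Prop) [∀ z k, Decidable (g z k)] {z k : ℕ} (hz : z < n.Zn)
    (hg : ∀ z' < n.Zn, ∀ k' < (rs z').length, g z' k' → z' = z ∧ k' = k) :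
    (∑ z' ∈ Finset.range n.Zn, ∑ k' ∈ Finset.range (rs z').length, if g z' k' then 1 else 0) =
      if k < (rs z).length ∧ g z k then 1 else 0 := by
  rw [Finset.sum_eq_single z]
  · by_cases hk : k < (rs z).length
    · rw [Finset.sum_eq_single k]
      · simp only [hk, true_and]
      · intro k' hk' hne
        exact if_neg fun h => hne (hg z hz k' (Finset.mem_range.1 hk') h).2
      · intro h
        exact absurd (Finset.mem_range.2 hk) h
    · rw [if_neg (fun h => hk h.1)]
      refine Finset.sum_eq_zero fun k' hk' => if_neg fun h => hk ?_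
      have := (hg z hz k' (Finset.mem_range.1 hk') h).2
      rw [← this]
      exact Finset.mem_range.1 hk'
  · intro z' hz' hne
    refine Finset.sum_eq_zero fun k' hk' => if_neg fun h => hne ?_
    exact (hg z' (Finset.mem_range.1 hz') k' (Finset.mem_range.1 hk') h).1
  · intro h
    exact absurd (Finset.mem_range.2 hz) h

/-- a token of place `s` is given by a rule to round `c + 1` -/
def given (z c s : ℕ) : Prop :=
  c % 2 = 0 ∧ ∃ i, (rs z)[c / 2]? = some i ∧
    (s = (n.rule i).o0 ∨ s = (n.rule i).o1 ∨ s = (n.rule i).o2)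

theorem getD_of {l : List ℕ} {k : ℕ} (hk : k < l.length) : l[k]? = some (l.getD k 0) := by
  rw [List.getElem?_eq_getElem hk]
  congr 1
  rw [List.getD_eq_getElem _ _ hk]

theorem rl_bound (h : n.IsRuns rs) {z k : ℕ} (hz : z < n.Zn)
    (hk : k < (rs z).length) : (rs z).getD k 0 < n.r := by
  apply h.lt z hz
  rw [List.getD_eq_getElem _ _ hk]
  exact List.getElem_mem hk

open Classical in
theorem cnt_SR_Z (hn : n.Ok) (h : n.IsRuns rs) {c z ρ : ℕ} (hz : z < n.Zn) (hρ : ρ < n.zl) :
    cntAt (n.SR rs) WD.Z (c * n.P + z * n.zl + ρ) =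
      loc n (if c % 2 = 0 ∧ c / 2 < (rs z).length then 1 else 0)
        (fun s => if n.taken rs z c s then 1 else 0) ρ := by
  have h1 : 1 < n.zl := by rw [zl_eq]; omega
  have hmem : ∀ z' < n.Zn, ∀ k' < (rs z').length, ∀ x, x ∈ (n.rw (rl n rs z' k')).Z → x < n.zl := by
    intro z' hz' k' hk' x hx
    have hb := hn.rI _ (rl_bound n rs h hz' hk')
    simp only [Net.rw, rl, Finset.mem_insert, Finset.mem_singleton] at hx
    have e1 := th_lt n (show (n.rule ((rs z').getD k' 0)).i0 < n.a by omega)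
    have e2 := th_lt n (show (n.rule ((rs z').getD k' 0)).i1 < n.a by omega)
    have e3 := th_lt n (show (n.rule ((rs z').getD k' 0)).i2 < n.a by omega)
    rcases hx with rfl | rfl | rfl | rfl | rfl <;> omega
  rw [cnt_SR]
  have hg : ∀ z' < n.Zn, ∀ k' < (rs z').length,
      (2 * k' * n.P + z' * n.zl ≤ c * n.P + z * n.zl + ρ ∧
        c * n.P + z * n.zl + ρ - (2 * k' * n.P + z' * n.zl) ∈ (n.rw (rl n rs z' k')).Z) →
      c = 2 * k' ∧ z = z' ∧ ρ = c * n.P + z * n.zl + ρ - (2 * k' * n.P + z' * n.zl) := by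
    intro z' hz' k' hk' hh
    refine uniq n ?_ hz hz' hρ (hmem z' hz' k' hk' _ hh.2)
    omega
  rw [sum_single n rs _ (k := c / 2) hz]
  · by_cases hc : c % 2 = 0 ∧ c / 2 < (rs z).length
    · obtain ⟨hc1, hc2⟩ := hc
      have hc3 : 2 * (c / 2) = c := by omega
      have hb := hn.rI _ (rl_bound n rs h hz hc2)
      have ht : ∀ s, n.taken rs z c s ↔ (s = (n.rule ((rs z).getD (c / 2) 0)).i0 ∨
          s = (n.rule ((rs z).getD (c / 2) 0)).i1 ∨ s = (n.rule ((rs z).getD (c / 2) 0)).i2) := by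
        intro s
        unfold Net.taken
        rw [getD_of hc2]
        constructor
        · rintro ⟨-, i, hi, hs⟩
          rw [Option.some.injEq] at hi
          subst hi
          exact hs
        · intro hs
          exact ⟨hc1, _, rfl, hs⟩
      have hcc : (if c % 2 = 0 ∧ c / 2 < (rs z).length then (1 : ℕ) else 0) = 1 :=
        if_pos ⟨hc1, hc2⟩
      rw [hcc, loc_ind n _ _ (fun s hs => by rw [ht] at hs; omega)]
      have hsub : c * n.P + z * n.zl + ρ - (2 * (c / 2) * n.P + z * n.zl) = ρ := by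
        rw [hc3]; omega
      rw [hsub, hc3]
      have hle : c * n.P + z * n.zl ≤ c * n.P + z * n.zl + ρ := by omega
      have hex : (∃ s, n.taken rs z c s ∧ ρ = th s) ↔
          (ρ = th (n.rule ((rs z).getD (c / 2) 0)).i0 ∨
          ρ = th (n.rule ((rs z).getD (c / 2) 0)).i1 ∨
          ρ = th (n.rule ((rs z).getD (c / 2) 0)).i2) := by
        constructor
        · rintro ⟨s, hs, rfl⟩
          rw [ht] at hs
          rcases hs with rfl | rfl | rfl <;> simp
        · rintro (rfl | rfl | rfl)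
          · exact ⟨_, (ht _).2 (Or.inl rfl), rfl⟩
          · exact ⟨_, (ht _).2 (Or.inr (Or.inl rfl)), rfl⟩
          · exact ⟨_, (ht _).2 (Or.inr (Or.inr rfl)), rfl⟩
      have hm : ρ ∈ (n.rw (rl n rs z (c / 2))).Z ↔ (ρ = 0 ∨ ρ = 1 ∨
          ∃ s, n.taken rs z c s ∧ ρ = th s) := by
        rw [hex]
        simp only [Net.rw, rl, Finset.mem_insert, Finset.mem_singleton]
      simp only [hc2, hle, hm, true_and]
      by_cases r0 : ρ = 0
      · have r2 : ¬ ∃ s, n.taken rs z c s ∧ ρ = th s := by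
          rintro ⟨s, -, hs⟩
          unfold th at hs
          omega
        rw [if_pos (Or.inl r0), if_pos r0, if_neg (by omega), if_neg r2]
      · by_cases r1 : ρ = 1
        · have r2 : ¬ ∃ s, n.taken rs z c s ∧ ρ = th s := by
            rintro ⟨s, -, hs⟩
            unfold th at hs
            omega
          rw [if_pos (Or.inr (Or.inl r1)), if_neg r0, if_pos r1, if_neg r2]
        · simp only [r0, r1, false_or, if_false, zero_add]
    · have ht : ∀ s, ¬ n.taken rs z c s := by
        rintro s ⟨hc1, i, hi, -⟩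
        refine hc ⟨hc1, ?_⟩
        exact (List.getElem?_eq_some_iff.1 hi).1
      rw [if_neg hc, if_neg]
      · rw [loc_congr n (c' := 0) (w' := fun _ => 0) rfl (fun s _ => if_neg (ht s)), loc_zero]
      · rintro ⟨hk, hh⟩
        have := hg z hz _ hk hh
        refine hc ⟨?_, hk⟩
        omega
  · intro z' hz' k' hk' hh
    have := hg z' hz' k' hk' hh
    omega

theorem mem_A {R : Rule} {x : ℕ} (hR : R.o0 < R.o1 ∧ R.o1 < R.o2 ∧ R.o2 < n.a) :
    x ∈ (n.rw R).A ↔ ∃ ρ < n.zl, (x = n.P + ρ ∧ (ρ = th R.o0 ∨ ρ = th R.o1 ∨ ρ = th R.o2)) ∨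
      (x = 2 * n.P + ρ ∧ (ρ = 0 ∨ ρ = 1)) := by
  have h0 : 0 < n.zl := by rw [zl_eq]; omega
  have h1 : 1 < n.zl := by rw [zl_eq]; omega
  simp only [Net.rw, Finset.mem_insert, Finset.mem_singleton]
  constructor
  · rintro (rfl | rfl | rfl | rfl | rfl)
    · exact ⟨th R.o0, th_lt n (by omega), Or.inl ⟨rfl, by simp⟩⟩
    · exact ⟨th R.o1, th_lt n (by omega), Or.inl ⟨rfl, by simp⟩⟩
    · exact ⟨th R.o2, th_lt n (by omega), Or.inl ⟨rfl, by simp⟩⟩
    · exact ⟨0, h0, Or.inr ⟨rfl, by simp⟩⟩
    · exact ⟨1, h1, Or.inr ⟨rfl, by simp⟩⟩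
  · rintro ⟨ρ, hρ, ⟨rfl, rfl | rfl | rfl⟩ | ⟨rfl, rfl | rfl⟩⟩ <;> simp

open Classical in
theorem cnt_SR_A (hn : n.Ok) (h : n.IsRuns rs) {c z ρ : ℕ} (hz : z < n.Zn) (hρ : ρ < n.zl) :
    cntAt (n.SR rs) WD.A (c * n.P + z * n.zl + ρ + n.P) =
      loc n (if c % 2 = 1 ∧ c / 2 < (rs z).length then 1 else 0)
        (fun s => if given n rs z c s then 1 else 0) ρ := by
  have hR : ∀ z' < n.Zn, ∀ k' < (rs z').length, (rl n rs z' k').o0 < (rl n rs z' k').o1 ∧
      (rl n rs z' k').o1 < (rl n rs z' k').o2 ∧ (rl n rs z' k').o2 < n.a := by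
    intro z' hz' k' hk'
    exact hn.rO _ (rl_bound n rs h hz' hk')
  rw [cnt_SR]
  have hP : 0 < n.P := by
    have := pos_lt n hz hρ
    omega
  -- description of the condition
  have hg : ∀ z' < n.Zn, ∀ k' < (rs z').length,
      ((2 * k' * n.P + z' * n.zl ≤ c * n.P + z * n.zl + ρ + n.P ∧
        c * n.P + z * n.zl + ρ + n.P - (2 * k' * n.P + z' * n.zl) ∈ (n.rw (rl n rs z' k')).A) ↔
      z = z' ∧ ((c = 2 * k' ∧ (ρ = th (rl n rs z' k').o0 ∨ ρ = th (rl n rs z' k').o1 ∨
        ρ = th (rl n rs z' k').o2)) ∨ (c = 2 * k' + 1 ∧ (ρ = 0 ∨ ρ = 1)))) := by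
    intro z' hz' k' hk'
    rw [mem_A n (hR z' hz' k' hk')]
    constructor
    · rintro ⟨hle, ρ', hρ', ⟨hx, hx'⟩ | ⟨hx, hx'⟩⟩
      · obtain ⟨e1, e2, e3⟩ := uniq n (c := c) (c' := 2 * k') (by omega) hz hz' hρ hρ'
        subst e3
        exact ⟨e2, Or.inl ⟨e1, hx'⟩⟩
      · have hk2 : (2 * k' + 1) * n.P = 2 * k' * n.P + n.P := by ring
        obtain ⟨e1, e2, e3⟩ := uniq n (c := c) (c' := 2 * k' + 1) (by omega) hz hz' hρ hρ'
        subst e3
        exact ⟨e2, Or.inr ⟨e1, hx'⟩⟩
    · rintro ⟨rfl, ⟨rfl, hx'⟩ | ⟨rfl, hx'⟩⟩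
      · exact ⟨by omega, ρ, hρ, Or.inl ⟨by omega, hx'⟩⟩
      · have hk2 : (2 * k' + 1) * n.P = 2 * k' * n.P + n.P := by ring
        exact ⟨by omega, ρ, hρ, Or.inr ⟨by omega, hx'⟩⟩
  rw [sum_single n rs _ (k := c / 2) hz]
  · by_cases hk : c / 2 < (rs z).length
    · have hg' := hg z hz (c / 2) hk
      simp only [hk, true_and, and_true, hg']
      rcases Nat.mod_two_eq_zero_or_one c with hc | hc
      · -- even round
        have hc1 : c = 2 * (c / 2) := by omega
        have hc2 : ¬ c = 2 * (c / 2) + 1 := by omega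
        have ht : ∀ s, given n rs z c s ↔ (s = (rl n rs z (c / 2)).o0 ∨
            s = (rl n rs z (c / 2)).o1 ∨ s = (rl n rs z (c / 2)).o2) := by
          intro s
          unfold given
          rw [getD_of hk]
          constructor
          · rintro ⟨-, i, hi, hs⟩
            rw [Option.some.injEq] at hi
            subst hi
            exact hs
          · intro hs
            exact ⟨hc, _, rfl, hs⟩
        have hex : (∃ s, given n rs z c s ∧ ρ = th s) ↔
            (ρ = th (rl n rs z (c / 2)).o0 ∨ ρ = th (rl n rs z (c / 2)).o1 ∨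
              ρ = th (rl n rs z (c / 2)).o2) := by
          constructor
          · rintro ⟨s, hs, rfl⟩
            rw [ht] at hs
            rcases hs with rfl | rfl | rfl <;> simp
          · rintro (rfl | rfl | rfl)
            · exact ⟨_, (ht _).2 (Or.inl rfl), rfl⟩
            · exact ⟨_, (ht _).2 (Or.inr (Or.inl rfl)), rfl⟩
            · exact ⟨_, (ht _).2 (Or.inr (Or.inr rfl)), rfl⟩
        have hb := hR z hz (c / 2) hk
        rw [loc_ind n _ _ (fun s hs => by rw [ht] at hs; omega)]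
        have hcc : (if c % 2 = 1 then (1 : ℕ) else 0) = 0 := if_neg (by omega)
        rw [hcc]
        have e0 : (if ρ = 0 then 0 else 0) = 0 := by split_ifs <;> rfl
        have e1 : (if ρ = 1 then 0 else 0) = 0 := by split_ifs <;> rfl
        rw [e0, e1, zero_add, zero_add]
        by_cases hx : ρ = th (rl n rs z (c / 2)).o0 ∨ ρ = th (rl n rs z (c / 2)).o1 ∨
              ρ = th (rl n rs z (c / 2)).o2
        · rw [if_pos (Or.inl ⟨hc1, hx⟩), if_pos (hex.2 hx)]
        · rw [if_neg, if_neg (fun h' => hx (hex.1 h'))]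
          rintro (⟨_, h'⟩ | ⟨h', _⟩)
          · exact hx h'
          · exact hc2 h'
      · -- odd round
        have hc1 : c = 2 * (c / 2) + 1 := by omega
        have hc2 : ¬ c = 2 * (c / 2) := by omega
        have hno : ∀ s, ¬ given n rs z c s := by
          rintro s ⟨h1, -⟩
          omega
        rw [if_pos hc, loc_congr n (w' := fun _ => 0) rfl (fun s _ => if_neg (hno s))]
        unfold loc
        have e3 : (∑ s ∈ Finset.range n.a, if ρ = th s then 0 else 0) = 0 :=
          Finset.sum_eq_zero fun s _ => by split_ifs <;> rfl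
        rw [e3, add_zero]
        by_cases r0 : ρ = 0
        · rw [if_pos r0, if_neg (by omega : ¬ ρ = 1), if_pos (Or.inr ⟨hc1, Or.inl r0⟩)]
        · by_cases r1 : ρ = 1
          · rw [if_neg r0, if_pos r1, if_pos (Or.inr ⟨hc1, Or.inr r1⟩)]
          · rw [if_neg r0, if_neg r1, if_neg]
            rintro (⟨hx, _⟩ | ⟨_, hx⟩)
            · exact hc2 hx
            · rcases hx with hx | hx
              · exact r0 hx
              · exact r1 hx
    · have ht : ∀ s, ¬ given n rs z c s := by
        rintro s ⟨hc1, i, hi, -⟩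
        exact hk (List.getElem?_eq_some_iff.1 hi).1
      rw [if_neg (fun hh => hk hh.1), if_neg (fun hh => hk hh.2),
        loc_congr n (c' := 0) (w' := fun _ => 0) rfl (fun s _ => if_neg (ht s)), loc_zero]
  · intro z' hz' k' hk' hh
    have := (hg z' hz' k' hk').1 hh
    omega

theorem cnt_SR_A_small (hn : n.Ok) (h : n.IsRuns rs) {t : ℕ} (ht : t < n.P) :
    cntAt (n.SR rs) WD.A t = 0 := by
  rw [cnt_SR]
  refine Finset.sum_eq_zero fun z hz => Finset.sum_eq_zero fun k hk => if_neg ?_
  have hR : (rl n rs z k).o0 < (rl n rs z k).o1 ∧ (rl n rs z k).o1 < (rl n rs z k).o2 ∧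
      (rl n rs z k).o2 < n.a :=
    hn.rO _ (rl_bound n rs h (Finset.mem_range.1 hz) (Finset.mem_range.1 hk))
  rw [mem_A n hR]
  rintro ⟨_, ρ, _, ⟨h1, _⟩ | ⟨h1, _⟩⟩ <;> omega

/-! ### Markings -/

theorem fireL_cons (rule : ℕ → Rule) (m : ℕ → ℕ) (i : ℕ) (is : List ℕ) :
    fireL rule m (i :: is) = fireL rule ((rule i).fire m) is := rfl

theorem fireL_snoc (rule : ℕ → Rule) (m : ℕ → ℕ) (i : ℕ) (is : List ℕ) :
    fireL rule m (is ++ [i]) = (rule i).fire (fireL rule m is) := by
  unfold fireL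
  rw [List.foldl_append]
  rfl

theorem fires_eq {rule : ℕ → Rule} {m m' : ℕ → ℕ} {is : List ℕ} (h : Fires rule m is m') :
    m' = fireL rule m is := by
  induction h with
  | nil m => rfl
  | cons m i is m' h h' ih => rw [fireL_cons]; exact ih

theorem fires_en {rule : ℕ → Rule} {m m' : ℕ → ℕ} {is : List ℕ} (h : Fires rule m is m') :
    ∀ k < is.length, (rule (is.getD k 0)).En (fireL rule m (is.take k)) := by
  induction h with
  | nil m => intro k hk; simp at hk
  | cons m i is m' h h' ih =>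
    intro k hk
    cases k with
    | zero => exact h
    | succ k =>
      rw [List.length_cons] at hk
      rw [List.take_succ_cons, fireL_cons, List.getD_cons_succ]
      exact ih k (by omega)

theorem run_len (h : n.IsRuns rs) :
    ∑ z ∈ Finset.range n.Zn, (rs z).length = ∑ i ∈ Finset.range n.r, n.mult i := by
  have h1 : ∀ z ∈ Finset.range n.Zn, (rs z).length =
      ∑ i ∈ Finset.range n.r, (rs z).count i := by
    intro z hz
    have hlt := h.lt z (Finset.mem_range.1 hz)
    generalize rs z = l at hlt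
    induction l with
    | nil => simp
    | cons j l ih =>
      rw [List.length_cons, ih (fun i hi => hlt i (List.mem_cons_of_mem _ hi))]
      have : ∀ i ∈ Finset.range n.r, (j :: l).count i = l.count i + if j = i then 1 else 0 := by
        intro i _
        rw [List.count_cons]
        simp
      rw [Finset.sum_congr rfl this, Finset.sum_add_distrib, Finset.sum_ite_eq,
        if_pos (Finset.mem_range.2 (hlt j (List.mem_cons_self)))]
  rw [Finset.sum_congr rfl h1, Finset.sum_comm]
  exact Finset.sum_congr rfl fun i hi => h.cnt i (Finset.mem_range.1 hi)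

theorem len_le (hn : n.Ok) (h : n.IsRuns rs) {z : ℕ} (hz : z < n.Zn) :
    2 * (rs z).length ≤ n.Cyc := by
  have h1 := hn.room
  rw [← run_len n rs h] at h1
  have h2 : (rs z).length ≤ ∑ z ∈ Finset.range n.Zn, (rs z).length :=
    Finset.single_le_sum (f := fun z => (rs z).length) (fun _ _ => Nat.zero_le _)
      (Finset.mem_range.2 hz)
  omega

theorem mrk_zero (z : ℕ) : n.mrk rs z 0 = n.c0 z := rfl

theorem mrk_cyc (hn : n.Ok) (h : n.IsRuns rs) {z c : ℕ} (hz : z < n.Zn) (hc : n.Cyc ≤ c) :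
    ∀ s < n.a, n.mrk rs z c s = n.cf z s := by
  obtain ⟨m', h1, h2⟩ := h.run z hz
  have h3 := len_le n rs hn h hz
  unfold Net.mrk
  rw [List.take_of_length_le (by omega), ← fires_eq h1]
  exact h2

/-- enabledness in round `c` -/
theorem mrk_en (h : n.IsRuns rs) {z c : ℕ} (hz : z < n.Zn) (hc : c % 2 = 0)
    (hc' : c / 2 < (rs z).length) : (rl n rs z (c / 2)).En (n.mrk rs z c) := by
  obtain ⟨m', h1, -⟩ := h.run z hz
  have := fires_en h1 (c / 2) hc'
  unfold Net.mrk
  have e : (c + 1) / 2 = c / 2 := by omega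
  rw [e]
  exact this

theorem taken_le (h : n.IsRuns rs) {z c s : ℕ} (hz : z < n.Zn) (ht : n.taken rs z c s) :
    1 ≤ n.mrk rs z c s := by
  obtain ⟨hc, i, hi, hs⟩ := ht
  have hl := (List.getElem?_eq_some_iff.1 hi).1
  have hen := mrk_en n rs h hz hc hl
  have hi' : i = (rs z).getD (c / 2) 0 := by
    rw [getD_of hl, Option.some.injEq] at hi
    exact hi.symm
  subst hi'
  unfold rl Rule.En at hen
  rcases hs with rfl | rfl | rfl
  · exact hen.1
  · exact hen.2.1
  · exact hen.2.2.1

open Classical in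
theorem mrk_succ (z c s : ℕ) : n.mrk rs z (c + 1) s =
    (n.mrk rs z c s - if n.taken rs z c s then 1 else 0) + if given n rs z c s then 1 else 0 := by
  rcases Nat.mod_two_eq_zero_or_one c with hc | hc
  · by_cases hk : c / 2 < (rs z).length
    · have e1 : (c + 1) / 2 = c / 2 := by omega
      have e2 : (c + 1 + 1) / 2 = c / 2 + 1 := by omega
      have hi := getD_of hk
      have e3 : (rs z).take (c / 2 + 1) = (rs z).take (c / 2) ++ [(rs z).getD (c / 2) 0] := by
        rw [List.take_add_one, hi]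
        rfl
      have ht : n.taken rs z c s ↔ (s = (n.rule ((rs z).getD (c / 2) 0)).i0 ∨
          s = (n.rule ((rs z).getD (c / 2) 0)).i1 ∨ s = (n.rule ((rs z).getD (c / 2) 0)).i2) := by
        unfold Net.taken
        rw [hi]
        constructor
        · rintro ⟨-, i, hi, hs⟩
          rw [Option.some.injEq] at hi
          subst hi
          exact hs
        · intro hs
          exact ⟨hc, _, rfl, hs⟩
      have hg : given n rs z c s ↔ (s = (n.rule ((rs z).getD (c / 2) 0)).o0 ∨
          s = (n.rule ((rs z).getD (c / 2) 0)).o1 ∨ s = (n.rule ((rs z).getD (c / 2) 0)).o2) := by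
        unfold given
        rw [hi]
        constructor
        · rintro ⟨-, i, hi, hs⟩
          rw [Option.some.injEq] at hi
          subst hi
          exact hs
        · intro hs
          exact ⟨hc, _, rfl, hs⟩
      unfold Net.mrk
      rw [e1, e2, e3, fireL_snoc]
      unfold Rule.fire
      congr 1
      · congr 1
        exact if_congr ht.symm rfl rfl
      · exact if_congr hg.symm rfl rfl
    · have h1 : ¬ n.taken rs z c s := by
        rintro ⟨-, i, hi, -⟩
        exact hk (List.getElem?_eq_some_iff.1 hi).1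
      have h2 : ¬ given n rs z c s := by
        rintro ⟨-, i, hi, -⟩
        exact hk (List.getElem?_eq_some_iff.1 hi).1
      rw [if_neg h1, if_neg h2]
      unfold Net.mrk
      rw [List.take_of_length_le (by omega), List.take_of_length_le (by omega)]
      rfl
  · have h1 : ¬ n.taken rs z c s := by
      rintro ⟨h, -⟩
      omega
    have h2 : ¬ given n rs z c s := by
      rintro ⟨h, -⟩
      omega
    rw [if_neg h1, if_neg h2]
    unfold Net.mrk
    have e1 : (c + 1 + 1) / 2 = (c + 1) / 2 := by omega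
    rw [e1]
    rfl

/-! ### The counts of `A` and `Z` -/

/-- control tokens in round `c` -/
def ctl (c z : ℕ) : ℕ := if c / 2 < (rs z).length ∧ c % 2 = 1 then 0 else 1

theorem cntAt_append (S T : List (WD × ℕ)) (f : WD → Finset ℕ) (t : ℕ) :
    cntAt (S ++ T) f t = cntAt S f t + cntAt T f t := by
  unfold cntAt
  exact List.countP_append

theorem cntAt_S (f : WD → Finset ℕ) (t : ℕ) :
    cntAt (n.S rs) f t = cntAt (n.ST rs) f t + cntAt (n.SR rs) f t + cntAt n.SI f t +
      cntAt n.SF f t := by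
  unfold Net.S
  rw [cntAt_append, cntAt_append, cntAt_append]

theorem tot_Z (hn : n.Ok) (h : n.IsRuns rs) {c z ρ : ℕ} (hc : c ≤ n.Cyc) (hz : z < n.Zn)
    (hρ : ρ < n.zl) : cntAt (n.S rs) WD.Z (c * n.P + z * n.zl + ρ) =
      loc n (ctl rs c z) (n.mrk rs z c) ρ := by
  classical
  rw [cntAt_S, cnt_SR_Z n rs hn h hz hρ, cnt_SI_empty n WD.Z (fun _ => rfl), cnt_SF_Z n hz hρ]
  have e := cnt_ST_eval n rs WD.Z 0 rfl hz hρ (c := c)
  rw [add_zero] at e
  rw [e]
  have hlen := len_le n rs hn h hz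
  rcases Nat.lt_or_ge c n.Cyc with h1 | h1
  · rw [if_pos h1, if_neg (by omega : ¬ c = n.Cyc), loc_add, add_zero, add_zero]
    apply loc_congr
    · unfold ctlT ctl
      rcases Nat.mod_two_eq_zero_or_one c with hc2 | hc2 <;>
        by_cases hk : c / 2 < (rs z).length <;> simp [hk, hc2]
    · intro s _
      unfold wT
      by_cases ht : n.taken rs z c s
      · have := taken_le n rs h hz ht
        simp only [ht, if_true]
        omega
      · simp only [ht, if_false]
        omega
  · have hcc : c = n.Cyc := by omega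
    have hk : ¬ (c / 2 < (rs z).length) := by omega
    have hnt : ∀ s, ¬ n.taken rs z c s := by
      rintro s ⟨-, i, hi, -⟩
      exact hk (List.getElem?_eq_some_iff.1 hi).1
    rw [if_neg (by omega : ¬ c < n.Cyc), if_pos hcc, if_neg (fun h' => hk h'.2),
      loc_congr n (c := 0) (c' := 0) (w' := fun _ => 0) rfl (fun s _ => if_neg (hnt s)),
      loc_zero, zero_add, zero_add, zero_add]
    apply loc_congr
    · unfold ctl
      rw [if_neg (fun h' => hk h'.1)]
    · intro s hs
      exact (mrk_cyc n rs hn h hz h1 s hs).symm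

theorem tot_A (hn : n.Ok) (h : n.IsRuns rs) {c z ρ : ℕ} (hc : c ≤ n.Cyc) (hz : z < n.Zn)
    (hρ : ρ < n.zl) : cntAt (n.S rs) WD.A (c * n.P + z * n.zl + ρ) =
      loc n (ctl rs c z) (n.mrk rs z c) ρ := by
  classical
  have hv := pos_lt n hz hρ
  rw [cntAt_S, cnt_SI_A, cnt_SF_empty n WD.A (fun _ => rfl), add_zero]
  cases c with
  | zero =>
    rw [zero_mul, zero_add, cnt_ST_small n rs WD.A n.P rfl hv, cnt_SR_A_small n rs hn h hv,
      zero_add, zero_add, zc_eval n _ _ hz hρ]
    apply loc_congr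
    · unfold ctl
      rw [if_neg]
      rintro ⟨-, h'⟩
      omega
    · intro s _
      rfl
  | succ c =>
    have e : (c + 1) * n.P + z * n.zl + ρ = c * n.P + z * n.zl + ρ + n.P := by ring
    rw [e, cnt_ST_eval n rs WD.A n.P rfl hz hρ, cnt_SR_A n rs hn h hz hρ,
      zc_big n _ _ (by omega : n.P ≤ c * n.P + z * n.zl + ρ + n.P), add_zero,
      if_pos (by omega : c < n.Cyc), loc_add]
    apply loc_congr
    · unfold ctlT ctl
      rcases Nat.mod_two_eq_zero_or_one c with hc2 | hc2
      · have e1 : (c + 1) / 2 = c / 2 := by omega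
        have e2 : (c + 1) % 2 = 1 := by omega
        by_cases hk : c / 2 < (rs z).length <;> simp [hk, hc2, e1, e2]
      · have e2 : (c + 1) % 2 = 0 := by omega
        by_cases hk : c / 2 < (rs z).length <;> simp [hk, hc2, e2]
    · intro s _
      rw [mrk_succ]
      rfl

/-! ### Blocked ticks -/

/-- the tick blocked by rule number `k` of zone `z` -/
def pt (z k : ℕ) : ℕ := 2 * k * n.P + z * n.zl + th (rl n rs z k).l

theorem zs_iff (t : ℕ) : n.zs rs t = true ↔
    ∃ z < n.Zn, ∃ k < (rs z).length, t = pt n rs z k := by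
  unfold Net.zs
  rw [decide_eq_true_eq]
  rfl

theorem zs_odd {t : ℕ} (ht : n.zs rs t = true) : t % 2 = 1 := by
  rw [zs_iff] at ht
  obtain ⟨z, _, k, _, rfl⟩ := ht
  unfold pt th
  have e : 2 * k * n.P + z * n.zl + (3 + 2 * (rl n rs z k).l) =
      2 * (k * n.P + z * (n.a + 2) + 1 + (rl n rs z k).l) + 1 := by
    rw [zl_eq]; ring
  rw [e]
  omega

theorem pt_inj (hn : n.Ok) (h : n.IsRuns rs) {z k z' k' : ℕ} (hz : z < n.Zn)
    (hk : k < (rs z).length) (hz' : z' < n.Zn) (hk' : k' < (rs z').length)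
    (he : pt n rs z k = pt n rs z' k') : z = z' ∧ k = k' := by
  have h1 : (rl n rs z k).l < n.a := hn.rl _ (rl_bound n rs h hz hk)
  have h2 : (rl n rs z' k').l < n.a := hn.rl _ (rl_bound n rs h hz' hk')
  obtain ⟨e1, e2, _⟩ := uniq n he hz hz' (th_lt n h1) (th_lt n h2)
  exact ⟨e2, by omega⟩

theorem cnt_pt (hn : n.Ok) (h : n.IsRuns rs) (t : ℕ) :
    (∑ z ∈ Finset.range n.Zn, ∑ k ∈ Finset.range (rs z).length,
      if t = pt n rs z k then 1 else 0) = if n.zs rs t = true then 1 else 0 := by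
  by_cases ht : n.zs rs t = true
  · rw [if_pos ht]
    obtain ⟨z, hz, k, hk, rfl⟩ := (zs_iff n rs t).1 ht
    rw [sum_single n rs _ (k := k) hz]
    · rw [if_pos ⟨hk, rfl⟩]
    · intro z' hz' k' hk' he
      have := pt_inj n rs hn h hz hk hz' hk' he
      exact ⟨this.1.symm, this.2.symm⟩
  · rw [if_neg ht]
    refine Finset.sum_eq_zero fun z hz => Finset.sum_eq_zero fun k hk => if_neg fun he => ht ?_
    exact (zs_iff n rs t).2 ⟨z, Finset.mem_range.1 hz, k, Finset.mem_range.1 hk, he⟩

theorem tot_U (hn : n.Ok) (h : n.IsRuns rs) (t : ℕ) :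
    cntAt (n.S rs) WD.U t = if n.zs rs (t + 1) = true then 1 else 0 := by
  rw [cntAt_S, cnt_ST_empty n rs WD.U rfl, cnt_SI_empty n WD.U (fun _ => rfl),
    cnt_SF_empty n WD.U (fun _ => rfl), cnt_SR, zero_add, add_zero, add_zero,
    ← cnt_pt n rs hn h]
  refine Finset.sum_congr rfl fun z _ => Finset.sum_congr rfl fun k _ => if_congr ?_ rfl rfl
  unfold pt
  simp only [Net.rw, WD.U, Finset.mem_singleton]
  unfold th
  omega

theorem tot_D (hn : n.Ok) (h : n.IsRuns rs) (t : ℕ) :
    cntAt (n.S rs) WD.D t = if n.zs rs t = true then 1 else 0 := by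
  rw [cntAt_S, cnt_ST_empty n rs WD.D rfl, cnt_SI_empty n WD.D (fun _ => rfl),
    cnt_SF_empty n WD.D (fun _ => rfl), cnt_SR, zero_add, add_zero, add_zero,
    ← cnt_pt n rs hn h]
  refine Finset.sum_congr rfl fun z _ => Finset.sum_congr rfl fun k _ => if_congr ?_ rfl rfl
  unfold pt
  simp only [Net.rw, WD.D, Finset.mem_singleton]
  unfold th
  omega

theorem P_pos (hn : n.Ok) : 0 < n.P := by
  rw [P_eq]
  exact Nat.mul_pos hn.Zn (by rw [zl_eq]; omega)

theorem E_eq (hn : n.Ok) : n.E + 1 = n.Cyc * n.P + n.P := by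
  have := P_pos n hn
  unfold Net.E
  rw [Nat.succ_mul]
  omega

/-- decomposition of a tick -/
theorem decomp (hn : n.Ok) {t : ℕ} (ht : t ≤ n.E) :
    ∃ c z ρ, c ≤ n.Cyc ∧ z < n.Zn ∧ ρ < n.zl ∧ t = c * n.P + z * n.zl + ρ := by
  have hP := P_pos n hn
  have hzl : 0 < n.zl := by rw [zl_eq]; omega
  refine ⟨t / n.P, t % n.P / n.zl, t % n.P % n.zl, ?_, ?_, Nat.mod_lt _ hzl, ?_⟩
  · have h1 := E_eq n hn
    have h2 : t < (n.Cyc + 1) * n.P := by rw [Nat.succ_mul]; omega
    have := Nat.div_lt_of_lt_mul (by rw [Nat.mul_comm]; exact h2 : t < n.P * (n.Cyc + 1))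
    omega
  · have := Nat.mod_lt t hP
    rw [Nat.div_lt_iff_lt_mul hzl]
    rw [P_eq] at this
    rw [P_eq]
    exact this
  · have h1 := Nat.div_add_mod t n.P
    have h2 := Nat.div_add_mod (t % n.P) n.zl
    rw [Nat.mul_comm] at h1 h2
    omega

theorem pt_lt (hn : n.Ok) (h : n.IsRuns rs) {z k : ℕ} (hz : z < n.Zn) (hk : k < (rs z).length) :
    pt n rs z k + n.P < n.E := by
  have h1 := len_le n rs hn h hz
  have h2 := E_eq n hn
  have h3 : (rl n rs z k).l < n.a := hn.rl _ (rl_bound n rs h hz hk)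
  have h4 := pos_lt n hz (th_lt n h3)
  have h5 : 2 * (k + 1) ≤ n.Cyc := by omega
  have h6 := Nat.mul_le_mul_right n.P h5
  have h7 : 2 * (k + 1) * n.P = 2 * k * n.P + 2 * n.P := by ring
  have hP := P_pos n hn
  unfold pt
  omega

theorem mem_bd (hn : n.Ok) (h : n.IsRuns rs) : ∀ p ∈ n.S rs, p.2 + p.1.K ≤ n.E := by
  classical
  have hE := E_eq n hn
  have hP := P_pos n hn
  have h0 : 0 < n.zl := by rw [zl_eq]; omega
  have h1 : 1 < n.zl := by rw [zl_eq]; omega
  intro p hp
  unfold Net.S at hp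
  simp only [List.mem_append] at hp
  rcases hp with ((hp | hp) | hp) | hp
  · -- ordinary words
    have : ∃ c z ρ, c < n.Cyc ∧ z < n.Zn ∧ ρ < n.zl ∧ p = (n.tw, c * n.P + z * n.zl + ρ) := by
      unfold Net.ST at hp
      simp only [List.mem_flatMap, List.mem_append, List.mem_range] at hp
      obtain ⟨z, hz, c, hc, hh | ⟨s, hs, hh⟩⟩ := hp
      · split_ifs at hh
        · simp at hh
        · simp only [List.mem_cons, List.not_mem_nil, or_false] at hh
          rcases hh with hh | hh
          · exact ⟨c, z, 0, hc, hz, h0, hh⟩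
          · exact ⟨c, z, 1, hc, hz, h1, hh⟩
      · exact ⟨c, z, th s, hc, hz, th_lt n hs, (List.mem_replicate.1 hh).2⟩
    obtain ⟨c, z, ρ, hc, hz, hρ, rfl⟩ := this
    have h3 := pos_lt n hz hρ
    have h4 := Nat.mul_le_mul_right n.P (Nat.succ_le_of_lt hc)
    rw [Nat.succ_mul] at h4
    simp only [Net.tw]
    omega
  · unfold Net.SR at hp
    simp only [List.mem_flatMap, List.mem_map, List.mem_range] at hp
    obtain ⟨z, hz, k, hk, rfl⟩ := hp
    have h3 := len_le n rs hn h hz
    have h4 := pos_lt n hz h1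
    have h5 : 2 * (k + 1) ≤ n.Cyc := by omega
    have h6 := Nat.mul_le_mul_right n.P h5
    have h7 : 2 * (k + 1) * n.P = 2 * k * n.P + 2 * n.P := by ring
    simp only [Net.rw]
    omega
  · have : ∃ ρ < n.P, p = (Net.iw ρ, 0) := by
      unfold Net.SI Net.WI at hp
      simp only [List.mem_map, List.mem_flatMap, List.mem_range, List.mem_cons] at hp
      obtain ⟨w, ⟨z, hz, hh | hh | ⟨s, hs, hh⟩⟩, h'⟩ := hp
      · exact ⟨_, pos_lt n hz h0, by rw [← h', hh]; rfl⟩
      · exact ⟨_, pos_lt n hz h1, by rw [← h', hh]⟩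
      · exact ⟨_, pos_lt n hz (th_lt n hs), by rw [← h', (List.mem_replicate.1 hh).2]⟩
    obtain ⟨ρ, hρ, rfl⟩ := this
    simp only [Net.iw]
    omega
  · have : ∃ ρ < n.P, p = (Net.fw ρ, n.E - ρ) := by
      unfold Net.SF Net.WF at hp
      simp only [List.mem_map, List.mem_flatMap, List.mem_range, List.mem_cons] at hp
      obtain ⟨w, ⟨z, hz, hh | hh | ⟨s, hs, hh⟩⟩, h'⟩ := hp
      · exact ⟨n.P - 1 - z * n.zl, by omega, by rw [← h', hh]; rfl⟩
      · exact ⟨n.P - 1 - (z * n.zl + 1), by omega, by rw [← h', hh]; rfl⟩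
      · exact ⟨n.P - 1 - (z * n.zl + th s), by omega, by
          rw [← h', (List.mem_replicate.1 hh).2]; rfl⟩
    obtain ⟨ρ, hρ, rfl⟩ := this
    simp only [Net.fw]
    omega

end J1

open J1 in
/-- Module J1: runs give a strong phase solution. -/
theorem sps_of_runs (n : Net) (hn : n.Ok) (rs : ℕ → List ℕ) (h : n.IsRuns rs) :
    SPS (n.S rs) n.E (n.zs rs) where
  bd := mem_bd n rs hn h
  bal := by
    intro t ht
    obtain ⟨c, z, ρ, hc, hz, hρ, rfl⟩ := decomp n hn ht
    rw [tot_A n rs hn h hc hz hρ, tot_Z n rs hn h hc hz hρ]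
  blk := by
    intro t ht hzs
    obtain ⟨z, hz, k, hk, rfl⟩ := (zs_iff n rs t).1 hzs
    have h1 := len_le n rs hn h hz
    have h2 : (rl n rs z k).l < n.a := hn.rl _ (rl_bound n rs h hz hk)
    have h3 : 2 * k ≤ n.Cyc := by omega
    have e := tot_A n rs hn h h3 hz (th_lt n h2)
    unfold pt
    rw [e, loc_th n h2]
    have e2 : 2 * k / 2 = k := by omega
    have h4 := mrk_en n rs h (c := 2 * k) hz (by omega) (by rw [e2]; exact hk)
    rw [e2] at h4
    exact h4.2.2.2
  up := by
    intro t ht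
    rw [tot_U n rs hn h]
    refine if_congr ?_ rfl rfl
    constructor
    · intro h1
      refine ⟨?_, h1⟩
      by_contra h2
      rw [Bool.not_eq_false] at h2
      have := zs_odd n rs h1
      have := zs_odd n rs h2
      omega
    · intro h1
      exact h1.2
  dn := by
    intro t ht
    rw [tot_D n rs hn h]
    refine if_congr ?_ rfl rfl
    constructor
    · intro h1
      refine ⟨h1, ?_⟩
      by_contra h2
      rw [Bool.not_eq_false] at h2
      have := zs_odd n rs h1
      have := zs_odd n rs h2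
      omega
    · intro h1
      exact h1.1
  z0 := by
    by_contra h2
    rw [Bool.not_eq_false] at h2
    have := zs_odd n rs h2
    omega
  zE := by
    by_contra h2
    rw [Bool.not_eq_false] at h2
    obtain ⟨z, hz, k, hk, he⟩ := (zs_iff n rs _).1 h2
    have := pt_lt n rs hn h hz hk
    omega

end Pool.Agent.helper66.JS
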