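import Pool.Agent.helper63.JS.J1

/-!
# Module J2: runs give a strong phase solution with the right words
-/

set_option autoImplicit false

namespace Pool.Agent.helper66.JS

open Finset

namespace J2

open J1

theorem three {a i0 i1 i2 : ℕ} (h1 : i0 < i1) (h2 : i1 < i2) (h3 : i2 < a) :
    (∑ s ∈ Finset.range a, if s = i0 ∨ s = i1 ∨ s = i2 then 1 else 0) = 3 := by
  have : ∀ s ∈ Finset.range a, (if s = i0 ∨ s = i1 ∨ s = i2 then 1 else 0) =
      (if s = i0 then 1 else 0) + (if s = i1 then 1 else 0) + if s = i2 then 1 else 0 := by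
    intro s _
    split_ifs <;> omega
  rw [Finset.sum_congr rfl this, Finset.sum_add_distrib, Finset.sum_add_distrib,
    Finset.sum_ite_eq', Finset.sum_ite_eq', Finset.sum_ite_eq',
    if_pos (Finset.mem_range.2 (by omega)), if_pos (Finset.mem_range.2 (by omega)),
    if_pos (Finset.mem_range.2 (by omega))]

variable (n : Net) (rs : ℕ → List ℕ)

open Classical in
theorem sum_taken (hn : n.Ok) (h : n.IsRuns rs) {z c : ℕ} (hz : z < n.Zn) :
    (∑ s ∈ Finset.range n.a, if n.taken rs z c s then 1 else 0) =
      if c % 2 = 0 ∧ c / 2 < (rs z).length then 3 else 0 := by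
  by_cases hc : c % 2 = 0 ∧ c / 2 < (rs z).length
  · obtain ⟨hc, hk⟩ := hc
    have hb := hn.rI _ (rl_bound n rs h hz hk)
    rw [if_pos ⟨hc, hk⟩, ← three hb.1 hb.2.1 hb.2.2]
    refine Finset.sum_congr rfl fun s _ => ?_
    have ht : n.taken rs z c s ↔ (s = (n.rule ((rs z).getD (c / 2) 0)).i0 ∨
        s = (n.rule ((rs z).getD (c / 2) 0)).i1 ∨ s = (n.rule ((rs z).getD (c / 2) 0)).i2) := by
      unfold Net.taken
      rw [getD_of hk]
      constructor
      · rintro ⟨-, i, hi, hs⟩
        rw [Option.some.injEq] at hi
        subst hi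
        exact hs
      · intro hs
        exact ⟨hc, _, rfl, hs⟩
    exact if_congr ht rfl rfl
  · rw [if_neg hc]
    refine Finset.sum_eq_zero fun s _ => if_neg ?_
    rintro ⟨h1, i, hi, -⟩
    exact hc ⟨h1, (List.getElem?_eq_some_iff.1 hi).1⟩

open Classical in
theorem sum_given (hn : n.Ok) (h : n.IsRuns rs) {z c : ℕ} (hz : z < n.Zn) :
    (∑ s ∈ Finset.range n.a, if given n rs z c s then 1 else 0) =
      if c % 2 = 0 ∧ c / 2 < (rs z).length then 3 else 0 := by
  by_cases hc : c % 2 = 0 ∧ c / 2 < (rs z).length
  · obtain ⟨hc, hk⟩ := hc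
    have hb := hn.rO _ (rl_bound n rs h hz hk)
    rw [if_pos ⟨hc, hk⟩, ← three hb.1 hb.2.1 hb.2.2]
    refine Finset.sum_congr rfl fun s _ => ?_
    have ht : given n rs z c s ↔ (s = (n.rule ((rs z).getD (c / 2) 0)).o0 ∨
        s = (n.rule ((rs z).getD (c / 2) 0)).o1 ∨ s = (n.rule ((rs z).getD (c / 2) 0)).o2) := by
      unfold given
      rw [getD_of hk]
      constructor
      · rintro ⟨-, i, hi, hs⟩
        rw [Option.some.injEq] at hi
        subst hi
        exact hs
      · intro hs
        exact ⟨hc, _, rfl, hs⟩
    exact if_congr ht rfl rfl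
  · rw [if_neg hc]
    refine Finset.sum_eq_zero fun s _ => if_neg ?_
    rintro ⟨h1, i, hi, -⟩
    exact hc ⟨h1, (List.getElem?_eq_some_iff.1 hi).1⟩

open Classical in
theorem sum_wT (hn : n.Ok) (h : n.IsRuns rs) {z c : ℕ} (hz : z < n.Zn) :
    (∑ s ∈ Finset.range n.a, wT n rs c z s) +
      (if c % 2 = 0 ∧ c / 2 < (rs z).length then 3 else 0) =
      ∑ s ∈ Finset.range n.a, n.mrk rs z c s := by
  rw [← sum_taken n rs hn h hz, ← Finset.sum_add_distrib]
  refine Finset.sum_congr rfl fun s _ => ?_
  unfold wT
  by_cases ht : n.taken rs z c s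
  · have := taken_le n rs h hz ht
    simp only [ht, if_true]
    omega
  · simp only [ht, if_false]
    omega

theorem sum_mrk (hn : n.Ok) (h : n.IsRuns rs) {z : ℕ} (hz : z < n.Zn) (c : ℕ) :
    ∑ s ∈ Finset.range n.a, n.mrk rs z c s = ∑ s ∈ Finset.range n.a, n.c0 z s := by
  classical
  induction c with
  | zero => rfl
  | succ c ih =>
    have h1 := sum_wT n rs hn h hz (c := c)
    have h2 := sum_given n rs hn h hz (c := c)
    have h3 : ∑ s ∈ Finset.range n.a, n.mrk rs z (c + 1) s =
        (∑ s ∈ Finset.range n.a, wT n rs c z s) +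
          ∑ s ∈ Finset.range n.a, if given n rs z c s then 1 else 0 := by
      rw [← Finset.sum_add_distrib]
      refine Finset.sum_congr rfl fun s _ => ?_
      rw [mrk_succ]
      rfl
    omega

theorem seven (L : ℕ) (d : ℕ) : ∑ c ∈ Finset.range (2 * L + d),
    ((if c / 2 < L then 2 else 0) + if c % 2 = 0 ∧ c / 2 < L then 3 else 0) = 7 * L := by
  induction d with
  | succ d ih =>
    rw [← add_assoc, Finset.sum_range_succ, ih, if_neg (by omega), if_neg (by omega)]
    omega
  | zero =>
    rw [add_zero]
    have : ∀ m ≤ L, ∑ c ∈ Finset.range (2 * m),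
        ((if c / 2 < L then 2 else 0) + if c % 2 = 0 ∧ c / 2 < L then 3 else 0) = 7 * m := by
      intro m
      induction m with
      | zero => intro _; rfl
      | succ m ih =>
        intro hm
        rw [Nat.mul_succ, Finset.sum_range_succ, Finset.sum_range_succ, ih (by omega),
          if_pos (by omega), if_pos (by omega), if_pos (by omega), if_neg (by omega)]
        omega
    exact this L le_rfl

theorem length_ST (hn : n.Ok) (h : n.IsRuns rs) : (n.ST rs).length = n.NT := by
  classical
  have e : (n.ST rs).length = ∑ z ∈ Finset.range n.Zn, ∑ c ∈ Finset.range n.Cyc,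
      ((if c / 2 < (rs z).length then 0 else 2) + ∑ s ∈ Finset.range n.a, wT n rs c z s) := by
    unfold Net.ST
    rw [List.length_flatMap, ← sum_map_range]
    congr 1
    refine List.map_congr_left fun z _ => ?_
    rw [List.length_flatMap, ← sum_map_range]
    congr 1
    refine List.map_congr_left fun c _ => ?_
    rw [List.length_append, List.length_flatMap, ← sum_map_range]
    congr 1
    · split_ifs <;> rfl
    · congr 1
      refine List.map_congr_left fun s _ => ?_
      rw [List.length_replicate]
      rfl
  have key : ∀ z ∈ Finset.range n.Zn, (∑ c ∈ Finset.range n.Cyc,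
      ((if c / 2 < (rs z).length then 0 else 2) + ∑ s ∈ Finset.range n.a, wT n rs c z s)) +
        7 * (rs z).length = n.tok z * n.Cyc := by
    intro z hz
    have hz' := Finset.mem_range.1 hz
    have hl := len_le n rs hn h hz'
    obtain ⟨d, hd⟩ := Nat.exists_eq_add_of_le hl
    rw [← seven (rs z).length d, ← hd, ← Finset.sum_add_distrib]
    have : ∀ c ∈ Finset.range n.Cyc,
        ((if c / 2 < (rs z).length then 0 else 2) + ∑ s ∈ Finset.range n.a, wT n rs c z s) +
        ((if c / 2 < (rs z).length then 2 else 0) +
          if c % 2 = 0 ∧ c / 2 < (rs z).length then 3 else 0) = n.tok z := by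
      intro c _
      have h1 := sum_wT n rs hn h hz' (c := c)
      rw [sum_mrk n rs hn h hz'] at h1
      unfold Net.tok
      split_ifs at h1 ⊢ <;> omega
    rw [Finset.sum_congr rfl this, Finset.sum_const, Finset.card_range, smul_eq_mul, mul_comm]
  have h2 := Finset.sum_congr (rfl : Finset.range n.Zn = Finset.range n.Zn) key
  rw [Finset.sum_add_distrib, ← Finset.mul_sum, run_len n rs h, ← e, ← Finset.sum_mul] at h2
  unfold Net.NT
  omega

theorem ST_fst (p : WD × ℕ) (hp : p ∈ n.ST rs) : p.1 = n.tw := by
  classical
  unfold Net.ST at hp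
  simp only [List.mem_flatMap, List.mem_append, List.mem_range] at hp
  obtain ⟨z, _, c, _, h | ⟨s, _, h⟩⟩ := hp
  · split_ifs at h
    · simp at h
    · simp only [List.mem_cons, List.not_mem_nil, or_false] at h
      rcases h with h | h <;> rw [h]
  · rw [(List.mem_replicate.1 h).2]

theorem map_ST (hn : n.Ok) (h : n.IsRuns rs) : (n.ST rs).map Prod.fst = n.WT := by
  unfold Net.WT
  rw [List.eq_replicate_iff]
  refine ⟨by rw [List.length_map, length_ST n rs hn h], ?_⟩
  intro w hw
  obtain ⟨p, hp, rfl⟩ := List.mem_map.1 hw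
  exact ST_fst n rs p hp

theorem map_range_getD (f : ℕ → WD) (l : List ℕ) :
    (List.range l.length).map (fun k => f (l.getD k 0)) = l.map f := by
  apply List.ext_getElem
  · simp
  · intro i h1 h2
    simp only [List.getElem_map, List.getElem_range]
    rw [List.getD_eq_getElem]

theorem map_SR (h : n.IsRuns rs) : ((n.SR rs).map Prod.fst).Perm n.WR := by
  have e1 : (n.SR rs).map Prod.fst =
      ((List.range n.Zn).flatMap rs).map (fun i => n.rw (n.rule i)) := by
    unfold Net.SR
    rw [List.map_flatMap, List.map_flatMap]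
    congr 1
    funext z
    rw [List.map_map]
    exact map_range_getD (fun i => n.rw (n.rule i)) (rs z)
  have e2 : n.WR = ((List.range n.r).flatMap (fun i => List.replicate (n.mult i) i)).map
      (fun i => n.rw (n.rule i)) := by
    unfold Net.WR
    rw [List.map_flatMap]
    congr 1
    funext i
    rw [List.map_replicate]
  rw [e1, e2]
  apply List.Perm.map
  rw [List.perm_iff_count]
  intro a
  rw [List.count_eq_countP, List.count_eq_countP, countP_flatMap_range, countP_flatMap_range]
  by_cases ha : a < n.r
  · have h1 : (∑ i ∈ Finset.range n.r, (List.replicate (n.mult i) i).countP (fun x => x == a)) =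
        n.mult a := by
      rw [Finset.sum_eq_single a]
      · rw [List.countP_replicate]
        simp
      · intro b _ hb
        rw [List.countP_replicate]
        simp [hb]
      · intro hh
        exact absurd (Finset.mem_range.2 ha) hh
    rw [h1, ← h.cnt a ha]
    rfl
  · have h1 : (∑ i ∈ Finset.range n.r, (List.replicate (n.mult i) i).countP (fun x => x == a)) =
        0 := by
      refine Finset.sum_eq_zero fun i hi => ?_
      rw [List.countP_replicate]
      have : i ≠ a := by
        have := Finset.mem_range.1 hi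
        omega
      simp [this]
    rw [h1]
    refine Finset.sum_eq_zero fun z hz => ?_
    rw [List.countP_eq_zero]
    intro x hx hxa
    have h2 := h.lt z (Finset.mem_range.1 hz) x hx
    have h3 : x = a := by simpa using hxa
    omega

end J2

open J2 in
/-- Module J2: the words of the strong phase solution are the words of the net. -/
theorem perm_of_runs (n : Net) (hn : n.Ok) (rs : ℕ → List ℕ) (h : n.IsRuns rs) :
    ((n.S rs).map Prod.fst).Perm n.W := by
  unfold Net.S Net.W
  rw [List.map_append, List.map_append, List.map_append]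
  have e1 : n.SI.map Prod.fst = n.WI := by
    unfold Net.SI
    rw [List.map_map]
    exact List.map_id _
  have e2 : n.SF.map Prod.fst = n.WF := by
    unfold Net.SF
    rw [List.map_map]
    exact List.map_id _
  rw [e1, e2, map_ST n rs hn h]
  exact (((List.Perm.refl _).append (map_SR n rs h)).append (List.Perm.refl _)).append
    (List.Perm.refl _)

end Pool.Agent.helper66.JS
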